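import Mathlib

/-! Centralisers of cocompact subgroups of special unitary groups. -/

namespace Pool.Agent.Lib.MP_162bbe_gt.SU

open Matrix Module
open scoped TensorProduct ComplexOrder

theorem bdd_orbit {G A : Type*} [Group G] [TopologicalSpace G] [IsTopologicalGroup G] [Monoid A]
    [TopologicalSpace A] [ContinuousMul A] (π : G →* A) (hπ : Continuous π) {Γ : Subgroup G}
    [CompactSpace (G ⧸ Γ)] (Δ : Subgroup Γ) [Δ.FiniteIndex] {e : A}
    (he : ∀ δ ∈ Δ, π δ * e = e * π δ) {f : A → ℝ} (hf : Continuous f) :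
    ∃ C : ℕ, ∀ g, f (π g * e * π g⁻¹) < C := by
  have hm : ∀ g h : G, π (g * h) * e * π (g * h)⁻¹ = π g * (π h * e * π h⁻¹) * π g⁻¹ :=
    fun g h => by simp only [_root_.mul_inv_rev, map_mul, mul_assoc]
  have hE : (Set.range fun γ : Γ => π γ * e * π (γ : G)⁻¹).Finite := by
    refine (Set.finite_range fun q : Γ ⧸ Δ => π q.out * e * π (q.out : G)⁻¹).subset ?_
    rintro _ ⟨γ, rfl⟩
    obtain ⟨δ, hδ⟩ := QuotientGroup.mk_out_eq_mul Δ γ
    refine ⟨γ, ?_⟩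
    simp only [hδ, Subgroup.coe_mul, hm]
    rw [he _ δ.2, mul_assoc e, ← map_mul, mul_inv_cancel, map_one, mul_one]
  let U : ℕ → Set G := fun m =>
    ⋂ a ∈ Set.range fun γ : Γ => π γ * e * π (γ : G)⁻¹, {g | f (π g * a * π g⁻¹) < m}
  obtain ⟨m, h⟩ := isCompact_univ.elim_directed_cover (fun m => ((↑) : G → G ⧸ Γ) '' U m)
    (fun m => QuotientGroup.isOpenMap_coe _ (hE.isOpen_biInter fun a _ =>
      isOpen_lt (by fun_prop) continuous_const)) (fun q _ => by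
      obtain ⟨C, hC⟩ := (hE.image fun a => f (π q.out * a * π q.out⁻¹)).bddAbove
      obtain ⟨m, hm⟩ := exists_nat_gt C
      exact Set.mem_iUnion.2 ⟨m, q.out, Set.mem_iInter₂.2 fun a ha =>
        (hC ⟨a, ha, rfl⟩).trans_lt hm, q.out_eq⟩)
    (Monotone.directed_le fun a b hab => Set.image_mono (Set.iInter₂_mono fun _ _ g hg =>
      LT.lt.trans_le (b := (a : ℝ)) hg (Nat.cast_le.2 hab)))
  refine ⟨m, fun g => ?_⟩
  obtain ⟨g', hg, e'⟩ := h (Set.mem_univ (g : G ⧸ Γ))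
  rw [← mul_inv_cancel_left g' g, hm]
  exact Set.mem_iInter₂.1 hg _ ⟨⟨_, QuotientGroup.eq.1 e'⟩, rfl⟩

variable {n : Type*} [Fintype n] [DecidableEq n] {H e : Matrix n n ℂ}

/-- Matrices with a bounded conjugacy orbit are scalar. -/
def Den {G : Type*} [Group G] (π : G →* Matrix n n ℂ) : Prop :=
  ∀ e : Matrix n n ℂ, (∀ i j, ∃ C : ℝ, ∀ a, ‖(π a * e * π a⁻¹) i j‖ < C) → ∃ c : ℂ, e = c • 1

variable {G : Type*} [Group G] {π : G →* Matrix n n ℂ}

theorem comm_of_bdd (hb : ∀ i j, ∃ C : ℝ, ∀ a, ‖(π a * e * π a⁻¹) i j‖ < C) {N : Matrix n n ℂ}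
    (h1 : N * N = 0) (h2 : ∀ t : ℝ, ∃ a, π a = 1 + (t : ℂ) • N) : N * e = e * N := by
  have h3 : ∀ (s : ℂ) a, π a = 1 + s • N → π a⁻¹ = 1 + (-s) • N := fun s a h => by
    have : π a * (1 + (-s) • N) = 1 := by simp [h, add_mul, mul_add, h1]
    simpa only [← mul_assoc, ← map_mul, inv_mul_cancel, map_one, one_mul, mul_one] using
      congrArg (π a⁻¹ * ·) this.symm
  ext i j
  obtain ⟨C, hC⟩ := hb i j
  rw [← sub_eq_zero, ← Matrix.sub_apply]
  by_contra h0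
  have h6 := norm_pos_iff.2 h0
  set x := (N * e - e * N) i j with hx
  obtain ⟨a, ha⟩ := h2 (C / ‖x‖)
  obtain ⟨b, hb⟩ := h2 (-(C / ‖x‖))
  have h9 : ∀ s : ℂ, ((1 + s • N) * e * (1 + (-s) • N)) i j -
      ((1 + (-s) • N) * e * (1 + (- -s) • N)) i j = 2 * s * x := fun s => by
    simp only [hx, add_mul, mul_add, one_mul, mul_one, smul_mul_assoc, mul_smul_comm,
      Matrix.add_apply, Matrix.smul_apply, Matrix.sub_apply, smul_eq_mul]
    ring
  rw [Complex.ofReal_neg] at hb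
  have h10 := (norm_sub_le _ _).trans_lt (add_lt_add (hC a) (hC b))
  rw [h3 _ _ ha, h3 _ _ hb, ha, hb, h9, norm_mul, norm_mul, Complex.norm_real, Real.norm_eq_abs,
    Complex.norm_two, mul_assoc, abs_div, abs_norm, div_mul_cancel₀ _ h6.ne'] at h10
  linarith [le_abs_self C]

theorem den_sl (hs : ∀ g : Matrix n n ℂ, (∀ a b, (g a b).im = 0) → g.det = 1 → ∃ a, π a = g) :
    Den π := fun e hb => by
  obtain ⟨c, hc⟩ := mem_range_scalar_of_commute_single (M := e) fun i j hij =>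
    comm_of_bdd hb (single_mul_single_of_ne _ _ _ _ hij.symm _) fun t => hs _ (fun a b => by
      simp only [Matrix.add_apply, one_apply, Matrix.smul_apply, single_apply]
      split_ifs <;> simp) (by
      rw [smul_single, smul_eq_mul, mul_one]
      exact det_transvection_of_ne i j hij _)
  exact ⟨c, by rw [← hc, scalar_apply, smul_one_eq_diagonal]⟩

theorem scalar_of_comm (hH : H.IsHermitian) (hd : H.det ≠ 0) {v₀ : n → ℂ} (v0 : v₀ ≠ 0)
    (h0 : star v₀ ⬝ᵥ H *ᵥ v₀ = 0) (h : ∀ v : n → ℂ, star v ⬝ᵥ H *ᵥ v = 0 →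
      vecMulVec v (star v) * H * e = e * (vecMulVec v (star v) * H)) : ∃ c : ℂ, e = c • 1 := by
  have key : ∀ v w : n → ℂ, star v ⬝ᵥ H *ᵥ v = 0 →
      (star v ⬝ᵥ H *ᵥ e *ᵥ w) • v = (star v ⬝ᵥ H *ᵥ w) • e *ᵥ v := fun v w hv => by
    have := congrArg (· *ᵥ w) (h v hv)
    simpa only [← mulVec_mulVec, vecMulVec_mulVec, op_smul_eq_smul, mulVec_smul] using this
  have sym : ∀ v w : n → ℂ, star v ⬝ᵥ H *ᵥ w = star (star w ⬝ᵥ H *ᵥ v) := fun v w => by
    rw [star_dotProduct, star_mulVec, hH.eq, ← dotProduct_mulVec]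
  obtain ⟨y₀, hy₀⟩ : ∃ y, star v₀ ⬝ᵥ H *ᵥ y ≠ 0 := by
    refine ⟨H⁻¹ *ᵥ v₀, ?_⟩
    rw [mulVec_mulVec, mul_nonsing_inv _ hd.isUnit, one_mulVec]
    exact mt dotProduct_star_self_eq_zero.1 v0
  obtain ⟨c, hc⟩ : ∃ c : ℂ, e *ᵥ v₀ = c • v₀ :=
    ⟨_, by rw [← inv_smul_smul₀ hy₀ (e *ᵥ v₀), ← key v₀ y₀ h0, smul_smul]⟩
  have h1 : ∀ y, star v₀ ⬝ᵥ H *ᵥ y ≠ 0 → e *ᵥ y = c • y := fun y hy => by
    have hy' : star y ⬝ᵥ H *ᵥ v₀ ≠ 0 := by rwa [sym, star_ne_zero]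
    obtain ⟨s, hs⟩ : ∃ s : ℂ, s * (star y ⬝ᵥ H *ᵥ v₀) = (star y ⬝ᵥ H *ᵥ y) / 2 :=
      ⟨_, div_mul_cancel₀ _ hy'⟩
    have hs' : star s * (star v₀ ⬝ᵥ H *ᵥ y) = (star y ⬝ᵥ H *ᵥ y) / 2 := by
      rw [sym v₀ y, ← star_mul', hs, star_div₀, ← sym]
      simp
    have hw : star (y - s • v₀) ⬝ᵥ H *ᵥ (y - s • v₀) = 0 := by
      simp only [star_sub, star_smul, mulVec_sub, mulVec_smul, sub_dotProduct, dotProduct_sub,
        smul_dotProduct, dotProduct_smul, smul_eq_mul, h0]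
      linear_combination -hs - hs'
    have h2 := key _ v₀ hw
    have h3 : star (y - s • v₀) ⬝ᵥ H *ᵥ v₀ ≠ 0 := by
      simpa only [star_sub, star_smul, sub_dotProduct, smul_dotProduct, h0, smul_zero, sub_zero]
    rw [hc, mulVec_smul, dotProduct_smul, smul_eq_mul, mul_comm, mul_smul] at h2
    have h4 := smul_right_injective _ h3 h2
    rw [mulVec_sub, mulVec_smul, hc, smul_sub, smul_comm c s] at h4
    exact (sub_left_inj.1 h4).symm
  refine ⟨c, ext_iff_mulVec.2 fun y => ?_⟩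
  rw [smul_mulVec, one_mulVec]
  by_cases hy : star v₀ ⬝ᵥ H *ᵥ y = 0
  · have := h1 (y + y₀) (by rwa [mulVec_add, dotProduct_add, hy, zero_add])
    rwa [mulVec_add, h1 y₀ hy₀, smul_add, add_left_inj] at this
  · exact h1 y hy

theorem den_su (hH : H.IsHermitian) (hd : H.det ≠ 0) (hv : ∃ v, v ≠ 0 ∧ star v ⬝ᵥ H *ᵥ v = 0)
    (hs : ∀ g, gᴴ * H * g = H → g.det = 1 → ∃ a, π a = g) : Den π := fun e hb => by
  obtain ⟨v₀, v0, h0⟩ := hv
  refine scalar_of_comm hH hd v0 h0 fun v hv => ?_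
  set N := vecMulVec v (star v) * H with hN
  have h1 : N * N = 0 := by
    rw [hN, vecMulVec_mul, vecMulVec_mul_vecMulVec, ← dotProduct_mulVec, hv]
    simp
  have h2 : Nᴴ * H = H * N := by
    rw [hN, conjTranspose_mul, hH.eq, conjTranspose_vecMulVec, star_star, mul_assoc]
  have h3 := comm_of_bdd hb (N := Complex.I • N) (by simp [h1]) fun t => hs _ (by
    have : (1 + (t : ℂ) • Complex.I • N)ᴴ * H = H * (1 - (t : ℂ) • Complex.I • N) := by
      simp [add_mul, h2, sub_eq_add_neg, mul_add]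
    rw [this, mul_assoc]
    simp [sub_mul, mul_add, h1]) (by
    rw [hN, vecMulVec_mul, smul_smul, ← smul_vecMulVec, vecMulVec_eq Unit,
      det_one_add_replicateCol_mul_replicateRow, dotProduct_smul, ← dotProduct_mulVec, hv]
    simp)
  rw [smul_mul_assoc, mul_smul_comm] at h3
  exact smul_right_injective _ Complex.I_ne_zero h3

/-- The centraliser of a cocompact subgroup consists of scalars. -/
theorem Den.cent [TopologicalSpace G] [IsTopologicalGroup G] (h : Den π) (hπ : Continuous π)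
    {Γ : Subgroup G} [CompactSpace (G ⧸ Γ)] (Δ : Subgroup Γ) [Δ.FiniteIndex]
    (he : ∀ δ ∈ Δ, π δ * e = e * π δ) : ∃ c : ℂ, e = c • 1 :=
  h e fun i j => (bdd_orbit π hπ Δ he (f := fun a => ‖a i j‖) (by fun_prop)).elim fun C hC =>
    ⟨C, hC⟩

end Pool.Agent.Lib.MP_162bbe_gt.SU
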