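import Pool.Agent.Lib.MP_162bbe_gt.SU.Defs

/-! The real rank bounds the number of eigenvalues of one modulus above one. -/

namespace Pool.Agent.Lib.MP_162bbe_gt.SU

open Matrix Module
open scoped ComplexOrder

theorem iso_le {n p : ℕ} (E : Submodule ℂ (Fin n → ℂ))
    (h : ∀ v ∈ E, star v ⬝ᵥ form n p *ᵥ v = 0) : finrank ℂ E ≤ min p (n - p) := by
  have key : ∀ (P : Fin n → Prop) [DecidablePred P] (c : ℂ), c ≠ 0 →
      (∀ k : Fin n, ¬P k → (if (k : ℕ) < p then 1 else -1) = c) →
      finrank ℂ E ≤ Fintype.card {k // P k} := fun P _ c hc hP => by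
    rw [← finrank_fintype_fun_eq_card ℂ]
    refine LinearMap.finrank_le_finrank_of_injective
      (f := LinearMap.funLeft ℂ ℂ Subtype.val ∘ₗ E.subtype)
      ((injective_iff_map_eq_zero _).2 fun v hv => Subtype.ext ?_)
    have h1 : form n p *ᵥ v = c • (v : Fin n → ℂ) := funext fun k => by
      rw [form, mulVec_diagonal, Pi.smul_apply, smul_eq_mul]
      by_cases hk : P k
      · rw [show (v : Fin n → ℂ) k = 0 from congrFun hv ⟨k, hk⟩, mul_zero, mul_zero]
      · rw [hP k hk]
    have h2 := h v v.2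
    rw [h1, dotProduct_smul, smul_eq_mul, mul_eq_zero] at h2
    exact dotProduct_star_self_eq_zero.1 (h2.resolve_left hc)
  refine le_min ((key (fun k => (k : ℕ) < p) (-1) (by simp) fun k hk => if_neg hk).trans ?_)
    ((key (fun k => ¬(k : ℕ) < p) 1 one_ne_zero fun k hk => if_pos (not_not.1 hk)).trans ?_)
  · exact (Fintype.card_le_of_injective (fun k => (⟨k.1, k.2⟩ : Fin p))
      fun a b e => Subtype.ext (Fin.ext (Fin.mk.inj e))).trans (Fintype.card_fin _).le
  · exact (Fintype.card_le_of_injective (fun k => (⟨k.1 - p, by have := k.2; omega⟩ : Fin (n - p)))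
      fun a b e => Subtype.ext (Fin.ext (by
        have := a.2; have := b.2; have := Fin.mk.inj e; omega))).trans (Fintype.card_fin _).le

theorem count_prod {n : ℕ} (g : SpecialLinearGroup (Fin n) ℂ) :
    (g.1.charpoly.roots.map fun z => ‖z‖).prod = 1 := by
  have := map_multiset_prod (normHom (α := ℂ)) g.1.charpoly.roots
  rw [← det_eq_prod_roots_charpoly, g.2, map_one] at this
  exact this.symm

theorem count_orth {n : ℕ} {g H : Matrix (Fin n) (Fin n) ℂ} (hg : gᴴ * H * g = H) {l μ : ℂ}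
    (h : star l * μ ≠ 1) (a : ℕ) : ∀ v, ((toLin' g - l • 1) ^ a) v = 0 →
      ∀ (b : ℕ) w, ((toLin' g - μ • 1) ^ b) w = 0 → star v ⬝ᵥ H *ᵥ w = 0 := by
  induction a with
  | zero => intro v hv b w _; simp [show v = 0 from hv]
  | succ a iha =>
    intro v hv b
    induction b with
    | zero => intro w hw; simp [show w = 0 from hw]
    | succ b ihb =>
      intro w hw
      have h1 := iha _ (by rwa [pow_succ] at hv) _ w hw
      rw [pow_succ] at hw
      have h2 := ihb _ hw
      have h3 := iha _ (by rwa [pow_succ] at hv) _ _ hw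
      have h4 : star (g *ᵥ v) ⬝ᵥ H *ᵥ g *ᵥ w = star v ⬝ᵥ H *ᵥ w := by
        rw [star_mulVec, ← dotProduct_mulVec, mulVec_mulVec, mulVec_mulVec, hg]
      simp only [LinearMap.sub_apply, toLin'_apply, LinearMap.smul_apply, End.one_apply, star_sub,
        star_smul, mulVec_sub, mulVec_smul, sub_dotProduct, dotProduct_sub, smul_dotProduct,
        dotProduct_smul, smul_eq_mul] at h1 h2 h3
      refine (mul_eq_zero.1 ?_).resolve_left (sub_ne_zero.2 h)
      linear_combination h4 - h3 - μ * h1 - star l * h2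

theorem count_sl {n : ℕ} (g : SpecialLinearGroup (Fin n) ℂ) {ρ : ℝ} (hρ : 1 < ρ) :
    (g.1.charpoly.roots.filter fun z => ‖z‖ = ρ).card ≤ n - 1 := by
  have h1 := (Polynomial.card_roots' g.1.charpoly).trans
    (by rw [charpoly_natDegree_eq_dim, Fintype.card_fin] : _ = n).le
  rcases (Multiset.filter_le (fun z => ‖z‖ = ρ) g.1.charpoly.roots).lt_or_eq with h | h
  · have := Multiset.card_lt_card h
    omega
  rw [h]
  by_cases h2 : g.1.charpoly.roots = 0
  · simp [h2]
  have := Multiset.prod_map_lt_prod_map h2 (fun _ => (1 : ℝ)) (fun z => ‖z‖) (fun _ _ => one_pos)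
    fun z hz => Multiset.filter_eq_self.1 h z hz ▸ hρ
  simp [count_prod g] at this

theorem count_eq {n : ℕ} (g : Matrix (Fin n) (Fin n) ℂ) (ρ : ℝ) :
    (g.charpoly.roots.filter fun z => ‖z‖ = ρ).card =
      finrank ℂ (⨆ μ : {μ : ℂ // ‖μ‖ = ρ}, End.maxGenEigenspace (toLin' g) μ :) := by
  classical
  set f := toLin' g
  have h1 : ∀ s : Finset ℂ, ∑ μ ∈ s, finrank ℂ (End.maxGenEigenspace f μ) =
      finrank ℂ (⨆ μ ∈ s, End.maxGenEigenspace f μ :) := fun s => by
    induction s using Finset.induction_on with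
    | empty => rw [show ⨆ μ ∈ (∅ : Finset ℂ), End.maxGenEigenspace f μ = ⊥ by simp]; simp
    | insert a s ha ih =>
      have := Submodule.finrank_sup_add_finrank_inf_eq (End.maxGenEigenspace f a)
        (⨆ μ ∈ s, End.maxGenEigenspace f μ)
      rw [show _ ⊓ ⨆ μ ∈ s, End.maxGenEigenspace f μ = ⊥ from
        ((End.independent_maxGenEigenspace f).disjoint_biSup (y := s) ha).eq_bot,
        finrank_bot] at this
      rw [Finset.sum_insert ha, Finset.iSup_insert]
      omega
  have h3 : ∀ μ, finrank ℂ (End.maxGenEigenspace f μ) = g.charpoly.roots.count μ := fun μ => by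
    rw [Polynomial.count_roots, LinearMap.finrank_maxGenEigenspace_eq, charpoly_toLin']
  set s := (g.charpoly.roots.filter fun z => ‖z‖ = ρ).toFinset with hs
  have h2 : ∀ μ ∈ s, ‖μ‖ = ρ := fun μ h => (Multiset.mem_filter.1 (Multiset.mem_toFinset.1 h)).2
  rw [← Multiset.toFinset_sum_count_eq, Finset.sum_congr rfl fun μ h =>
    (Multiset.count_filter_of_pos (p := fun z => ‖z‖ = ρ) (h2 μ h)).trans (h3 μ).symm, h1]
  refine congrArg (fun W : Submodule ℂ _ => finrank ℂ W) (le_antisymm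
    (iSup₂_le fun μ h => le_iSup_of_le ⟨μ, h2 μ h⟩ le_rfl) (iSup_le fun μ => ?_))
  by_cases h : μ.1 ∈ s
  · exact le_iSup₂_of_le μ.1 h le_rfl
  · rw [Submodule.finrank_eq_zero.1 ((h3 μ).trans (Multiset.count_eq_zero.2 fun h' =>
      h (Multiset.mem_toFinset.2 (Multiset.mem_filter.2 ⟨h', μ.2⟩))))]
    exact bot_le

theorem count_su {n p : ℕ} {g : Matrix (Fin n) (Fin n) ℂ} (hg : gᴴ * form n p * g = form n p)
    {ρ : ℝ} (hρ : 1 < ρ) : (g.charpoly.roots.filter fun z => ‖z‖ = ρ).card ≤ min p (n - p) := by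
  rw [count_eq]
  refine iso_le _ fun v hv => ?_
  suffices ∀ w ∈ ⨆ μ : {μ : ℂ // ‖μ‖ = ρ}, End.maxGenEigenspace (toLin' g) μ,
    star v ⬝ᵥ form n p *ᵥ w = 0 from this v hv
  intro w hw
  induction hv using Submodule.iSup_induction' with
  | zero => simp
  | add x y _ _ hx hy => rw [star_add, add_dotProduct, hx, hy, add_zero]
  | mem l v hv =>
    induction hw using Submodule.iSup_induction' with
    | zero => simp
    | add x y _ _ hx hy => rw [mulVec_add, dotProduct_add, hx, hy, add_zero]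
    | mem μ w hw =>
      obtain ⟨a, ha⟩ := (End.mem_maxGenEigenspace ..).1 hv
      obtain ⟨b, hb⟩ := (End.mem_maxGenEigenspace ..).1 hw
      refine count_orth hg (fun e => ?_) a v ha b w hb
      have := congrArg norm e
      rw [norm_mul, norm_star, l.2, μ.2, norm_one] at this
      nlinarith

theorem count_even {V : Type*} [AddCommGroup V] [Module ℂ V] [FiniteDimensional ℂ V]
    (θ : V →ₛₗ[starRingEnd ℂ] V) (h : ∀ v, θ (θ v) = -v) : Even (finrank ℂ V) := by
  let b := finBasis ℂ V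
  let T : Matrix _ _ ℂ := of fun i j => b.repr (θ (b j)) i
  have h1 : T * T.map (starRingEnd ℂ) = -1 := by
    ext i j
    have := congrArg (b.repr · i) (h (b j))
    rw [← b.sum_repr (θ (b j)), map_sum] at this
    simp only [LinearMap.map_smulₛₗ, map_sum] at this
    simpa [T, mul_apply, mul_comm, one_apply, Finsupp.single_apply, eq_comm] using this
  have h2 := congrArg det h1
  rw [det_mul, ← RingHom.mapMatrix_apply, ← RingHom.map_det, Complex.mul_conj, det_neg, det_one,
    mul_one, Fintype.card_fin] at h2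
  refine (Nat.even_or_odd _).resolve_right fun h3 => ?_
  rw [h3.neg_one_pow] at h2
  linarith [Complex.normSq_nonneg T.det, (by exact_mod_cast h2 : Complex.normSq T.det = -1)]

theorem jq_mulVec {n : ℕ} (v : Fin n → ℂ) (a : Fin n) :
    (jq n *ᵥ v) a = (if (a : ℕ) < n / 2 then 1 else -1) * v a.rev := by
  refine (congrFun (submatrix_mulVec_equiv (form n (n / 2)) v id Fin.revPerm) a).trans ?_
  simp [form, mulVec_diagonal]

theorem count_quat {n : ℕ} (hn : Even n) {g : Matrix (Fin n) (Fin n) ℂ}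
    (hg : g * jq n = jq n * g.map (starRingEnd ℂ)) (ρ : ℝ) :
    Even (g.charpoly.roots.filter fun z => ‖z‖ = ρ).card := by
  let θ : (Fin n → ℂ) →ₛₗ[starRingEnd ℂ] Fin n → ℂ :=
    { toFun := fun v => jq n *ᵥ star v
      map_add' := fun _ _ => by rw [star_add, mulVec_add]
      map_smul' := fun _ _ => by rw [star_smul, mulVec_smul]; rfl }
  have h1 : ∀ v, g *ᵥ θ v = θ (g *ᵥ v) := fun v => by
    change g *ᵥ jq n *ᵥ star v = jq n *ᵥ star (g *ᵥ v)
    rw [mulVec_mulVec, hg, ← mulVec_mulVec]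
    congr 1
    ext a
    simp [mulVec, dotProduct]
  have h2 : ∀ (μ : ℂ) (a : ℕ) v, ((toLin' g - star μ • 1) ^ a) (θ v) =
      θ (((toLin' g - μ • 1) ^ a) v) := fun μ a => by
    induction a with
    | zero => simp
    | succ a ih => intro v; simp [pow_succ, ← ih, h1]
  rw [count_eq]
  refine count_even (θ.restrict (p := ⨆ μ : {μ : ℂ // ‖μ‖ = ρ}, End.maxGenEigenspace (toLin' g) μ)
    fun v hv => ?_) fun v => Subtype.ext (funext fun a => ?_)
  · induction hv using Submodule.iSup_induction' with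
    | zero => simp
    | add x y _ _ hx hy => exact map_add θ x y ▸ add_mem hx hy
    | mem μ v hv =>
      obtain ⟨a, ha⟩ := (End.mem_maxGenEigenspace ..).1 hv
      exact Submodule.mem_iSup_of_mem ⟨star μ.1, by rw [norm_star, μ.2]⟩
        ((End.mem_maxGenEigenspace ..).2 ⟨a, by rw [h2, ha, map_zero]⟩)
  · obtain ⟨k, rfl⟩ := hn
    have := a.2
    change (jq _ *ᵥ star (jq _ *ᵥ star v.1)) a = -v.1 a
    rw [jq_mulVec, Pi.star_apply, jq_mulVec, Fin.val_rev]
    split_ifs <;> first | omega | simp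

theorem not_dvd {n d : ℕ} {κ : Kind} (hd : Ok n d κ) {g : SpecialLinearGroup (Fin n) ℂ}
    (hg : g ∈ factor n κ) {ρ : ℝ} (hρ : 1 < ρ)
    (h0 : 0 < (g.1.charpoly.roots.filter fun z => ‖z‖ = ρ).card) :
    ¬d ∣ 2 * (g.1.charpoly.roots.filter fun z => ‖z‖ = ρ).card := fun h => by
  have key : ∀ R, (g.1.charpoly.roots.filter fun z => ‖z‖ = ρ).card ≤ R →
      ¬(2 * R < d ∨ Odd d ∧ R < d) := by
    rintro R hR (h1 | ⟨h1, h2⟩)
    · have := Nat.le_of_dvd (by omega) h
      omega
    · have := Nat.le_of_dvd h0 (h1.coprime_two_right.dvd_of_dvd_mul_left h)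
      omega
  have h1 := count_sl g hρ
  rcases κ with _ | _ | p | _
  · exact key _ h1 (Or.inr ⟨hd.1 ▸ hd.2, (Nat.sub_lt hd.2.pos one_pos).trans_eq hd.1.symm⟩)
  · exact key _ h1 (Or.inr ⟨hd.1 ▸ hd.2, (Nat.sub_lt hd.2.pos one_pos).trans_eq hd.1.symm⟩)
  · exact key _ (count_su hg hρ) hd
  obtain ⟨rfl, h2⟩ := hd
  obtain ⟨k, hk⟩ := count_quat (Nat.even_iff.2 (by omega)) hg ρ
  obtain ⟨c, hc⟩ := h
  rcases c with _ | _ | c
  · omega
  · omega
  · nlinarith [show (g.1.charpoly.roots.filter fun z => ‖z‖ = ρ).card + 1 ≤ d by omega]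

theorem rank_lt {n d : ℕ} {κ : Kind} (hd : Ok n d κ) {g : SpecialLinearGroup (Fin n) ℂ}
    (hg : g ∈ factor n κ) {s : ℕ} (hs : 0 < s) (h : (g.1 - 1) ^ (s + 1) = 0) :
    ((g.1 - 1) ^ s).rank < d := by
  have h1 : (g.1 - 1) ^ s * (g.1 - 1) ^ s = 0 := by
    rw [← pow_add]
    exact pow_eq_zero_of_le (by omega) h
  have sl := rank_add_rank_le_card_of_mul_eq_zero h1
  rw [Fintype.card_fin] at sl
  have key : ∀ R, ((g.1 - 1) ^ s).rank ≤ R → 2 * R < d ∨ Odd d ∧ R < d →
      ((g.1 - 1) ^ s).rank < d := fun R _ _ => by omega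
  rcases κ with _ | _ | p | _
  · have := hd.1
    have := hd.2.pos
    omega
  · have := hd.1
    have := hd.2.pos
    omega
  swap
  · have := hd.1
    have := hd.2
    omega
  refine key _ ?_ hd
  have h2 : (g.1 - 1)ᴴ * form n p = form n p * (-(g⁻¹).1 * (g.1 - 1)) := by
    have h3 : g.1 * (g⁻¹).1 = 1 := congrArg Subtype.val (mul_inv_cancel g)
    have h4 : (g⁻¹).1 * g.1 = 1 := congrArg Subtype.val (inv_mul_cancel g)
    have h5 : g.1ᴴ * form n p = form n p * (g⁻¹).1 := by
      conv_rhs => rw [← (hg : g.1ᴴ * form n p * g.1 = form n p), mul_assoc, h3, mul_one]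
    rw [conjTranspose_sub, sub_mul, h5, neg_mul, mul_sub, h4, neg_sub, mul_sub, conjTranspose_one,
      mul_one, mul_one, one_mul]
  have h3 : ∀ k : ℕ, ((g.1 - 1) ^ k)ᴴ * form n p = form n p * (-(g⁻¹).1 * (g.1 - 1)) ^ k :=
    fun k => by
      induction k with
      | zero => simp
      | succ k ih => rw [pow_succ, conjTranspose_mul, mul_assoc, ih, ← mul_assoc, h2, mul_assoc,
          pow_succ']
  refine iso_le _ ?_
  rintro _ ⟨v, rfl⟩
  have h4 : Commute (-(g⁻¹).1) (g.1 - 1) := Commute.neg_left (Commute.sub_right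
    (congrArg Subtype.val (Commute.refl g).inv_left.eq) (Commute.one_right _))
  rw [mulVecLin_apply, star_mulVec, ← dotProduct_mulVec, mulVec_mulVec, mulVec_mulVec, h3,
    h4.mul_pow, mul_assoc, mul_assoc, h1]
  simp

theorem exists_big {n : ℕ} (g : SpecialLinearGroup (Fin n) ℂ) {z : ℂ} (hz : z ∈ g.1.charpoly.roots)
    (h : ‖z‖ ≠ 1) : ∃ w ∈ g.1.charpoly.roots, 1 < ‖w‖ := by
  by_contra hn
  push Not at hn
  obtain ⟨t, ht⟩ := Multiset.exists_cons_of_mem hz
  have h1 := count_prod g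
  have h2 := Multiset.prod_map_le_prod_map₀ (s := t) (fun z => ‖z‖) (fun _ => (1 : ℝ))
    (fun _ _ => norm_nonneg _) fun w hw => hn w (ht ▸ Multiset.mem_cons_of_mem hw)
  rw [ht, Multiset.map_cons, Multiset.prod_cons] at h1
  rw [Multiset.prod_map_one] at h2
  nlinarith [(hn z hz).lt_of_ne h, norm_nonneg z]

end Pool.Agent.Lib.MP_162bbe_gt.SU
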