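import Pool.Agent.Lib.MP_162bbe_gt.SU.Defs
import Pool.Agent.Lib.MP_162bbe_gt.SU.Bor

/-! Matrices with a bounded orbit under one of the factors are scalar. -/

namespace Pool.Agent.Lib.MP_162bbe_gt.SU

open Matrix

theorem den_quat {n : ℕ} (hn : Even n) (h4 : 4 ≤ n) {G : Type*} [Group G]
    {π : G →* Matrix (Fin n) (Fin n) ℂ}
    (hs : ∀ g, g * jq n = jq n * g.map (starRingEnd ℂ) → g.det = 1 → ∃ a, π a = g) : Den π := by
  intro e hb
  let ε : Fin n → ℂ := fun a => if (a : ℕ) < n / 2 then 1 else -1
  have hε : ∀ a, ε a.rev = -ε a := fun a => by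
    obtain ⟨k, rfl⟩ := hn
    have := a.2
    simp only [ε, Fin.val_rev]
    split_ifs <;> first | omega | simp
  have h2 : ∀ a, ε a * ε a = 1 := fun a => by simp only [ε]; split_ifs <;> simp
  have h3 : ∀ a, starRingEnd ℂ (ε a) = ε a := fun a => by simp only [ε]; split_ifs <;> simp
  have hJ : ∀ a b, jq n a b = if b = a.rev then ε a else 0 := fun a b => by
    simp only [jq, form, submatrix_apply, diagonal_apply, id, @eq_comm _ a, Fin.rev_eq_iff, ε]
  have hl : ∀ (a b : Fin n) c, single a b c * jq n = single a b.rev (c * ε b) := fun a b c => by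
    ext x y
    by_cases h : a = x
    · simp [← h, hJ, single_apply, eq_comm]
    · simp [h, Ne.symm h]
  have hr : ∀ a b c, jq n * single a b c = single a.rev b (ε a.rev * c) := fun a b c => by
    ext x y
    by_cases h : b = y
    · rw [← h, mul_single_apply_same, hJ]
      by_cases h' : a = x.rev <;> simp [h', Fin.rev_eq_iff]
    · simp [h, Ne.symm h]
  have key : ∀ a b : Fin n, a ≠ b → b ≠ a.rev → Commute (single a b (1 : ℂ)) e := by
    intro a b h1 h5
    have h6 : b.rev ≠ a := fun h => h5 (by rw [← h, Fin.rev_rev])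
    have h7 : a.rev ≠ b.rev := fun h => h1 (Fin.rev_injective h)
    have h8 : ∀ c : ℂ, Commute (single a b c +
        single a.rev b.rev (ε a * ε b * starRingEnd ℂ c)) e := fun c =>
      comm_of_bdd hb (by simp [mul_add, add_mul, single_mul_single_of_ne, h1.symm, h5, h6,
        h7.symm]) fun t => hs _ (by
        simp only [add_mul, mul_add, Matrix.map_add _ (map_add _), smul_single, smul_add, hl, hr,
          map_single _ _ _ (starRingEnd ℂ), Matrix.map_one _ (map_zero _) (map_one _), one_mul,
          mul_one, Fin.rev_rev, hε, smul_eq_mul, map_mul, h3, Complex.conj_ofReal,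
          Complex.conj_conj]
        rw [add_comm (single a _ _)]
        congr 3
        · linear_combination (-(t : ℂ) * ε a * starRingEnd ℂ c) * h2 b
        · linear_combination (-(t : ℂ) * ε b * c) * h2 a) (by
        have : 1 + (t : ℂ) • (single a b c + single a.rev b.rev (ε a * ε b * starRingEnd ℂ c)) =
            transvection a b (t * c) *
              transvection a.rev b.rev (t * (ε a * ε b * starRingEnd ℂ c)) := by
          simp [transvection, mul_add, add_mul, single_mul_single_of_ne, h5, add_assoc]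
        rw [this, det_mul, det_transvection_of_ne _ _ h1, det_transvection_of_ne _ _ h7, mul_one])
    have := ((h8 1).sub_left ((h8 Complex.I).smul_left Complex.I)).smul_left (2⁻¹ : ℂ)
    refine Eq.mp (congrArg (Commute · e) ?_) this
    ext x y
    simp only [Matrix.smul_apply, Matrix.sub_apply, Matrix.add_apply, single_apply, smul_eq_mul,
      map_one, Complex.conj_I]
    split_ifs <;> ring_nf <;> norm_num
  obtain ⟨c, hc⟩ := mem_range_scalar_of_commute_single (M := e) fun a b hab => by
    by_cases h : b = a.rev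
    · obtain ⟨x, h1, h5⟩ : ∃ x : Fin n, x ≠ a ∧ x ≠ b := by
        by_contra! h
        have := Finset.card_le_card (show Finset.univ ⊆ {a, b} from fun x _ => by
          simpa using or_iff_not_imp_left.2 (h x))
        have := Finset.card_le_two (a := a) (b := b)
        simp at *
        omega
      simpa using (key a x h1.symm (h ▸ h5)).mul_left
        (key x b h5 fun e => h1 (Fin.rev_injective (e.symm.trans h)))
    · exact key a b hab h
  exact ⟨c, by rw [← hc, scalar_apply, smul_one_eq_diagonal]⟩

theorem den_factor {n : ℕ} {κ : Kind} (hκ : 0 < realRank n κ) {G : Type*} [Group G]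
    {π : G →* Matrix (Fin n) (Fin n) ℂ} (h : ∀ g ∈ factor n κ, ∃ a, π a = g.1) : Den π := by
  rcases κ with _ | _ | p | _
  · refine den_sl fun g h1 h2 => h ⟨g, h2⟩ ?_
    have e : (algebraMap ℝ ℂ).mapMatrix (g.map Complex.re) = g := by
      ext a b
      exact Complex.ext (by simp) (by simp [h1])
    exact ⟨⟨g.map Complex.re, Complex.ofReal_injective (by
      rw [← Complex.coe_algebraMap, RingHom.map_det, e, h2, map_one])⟩, Subtype.ext e⟩
  · exact den_sl fun g _ h2 => h ⟨g, h2⟩ trivial
  swap
  · have hn : Even n := by_contra fun hn => by simp [realRank, hn] at hκ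
    refine den_quat hn ?_ fun g h1 h2 => h ⟨g, h2⟩ h1
    simp only [realRank, hn, if_true] at hκ
    omega
  obtain ⟨h1, h2⟩ := lt_min_iff.1 hκ
  refine den_su (H := form n p) (isHermitian_diagonal_of_self_adjoint _ (funext fun k => ?_)) ?_
    ⟨Pi.single ⟨0, by omega⟩ 1 + Pi.single ⟨p, by omega⟩ 1, fun e => ?_, ?_⟩
    fun g h3 h4 => h ⟨g, h4⟩ h3
  · rw [Pi.star_apply]
    split_ifs <;> simp
  · rw [form, det_diagonal]
    exact Finset.prod_ne_zero_iff.2 fun k _ => by split_ifs <;> simp
  · simpa [Pi.single_apply, Fin.ext_iff, h1.ne] using congrFun e ⟨0, by omega⟩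
  · simp [form, mulVec_add, Fin.ext_iff, h1.ne, h1.ne', h1, Pi.star_single]

/-- The projection to a factor. -/
def prj {n r : ℕ} (κ : Fin r → Kind) (i : Fin r) :
    (Π i, factor n (κ i)) →* Matrix (Fin n) (Fin n) ℂ where
  toFun g := (g i).1.1
  map_one' := rfl
  map_mul' _ _ := rfl

theorem continuous_prj {n r : ℕ} (κ : Fin r → Kind) (i : Fin r) : Continuous (prj (n := n) κ i) :=
  continuous_subtype_val.comp (continuous_subtype_val.comp (continuous_apply i))

/-- A matrix that commutes with a subgroup of finite index of a cocompact subgroup is scalar. -/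
theorem cent_prj {n r : ℕ} {κ : Fin r → Kind} {i : Fin r} (hκ : 0 < realRank n (κ i))
    {Γ : Subgroup (Π i, factor n (κ i))} [CompactSpace ((Π i, factor n (κ i)) ⧸ Γ)]
    (Δ : Subgroup Γ) [Δ.FiniteIndex] {e : Matrix (Fin n) (Fin n) ℂ}
    (he : ∀ δ ∈ Δ, (δ.1 i).1.1 * e = e * (δ.1 i).1.1) : ∃ c : ℂ, e = c • 1 :=
  (den_factor hκ (π := prj κ i) fun g hg => ⟨Pi.mulSingle i ⟨g, hg⟩, by simp [prj]⟩).cent
    (continuous_prj κ i) Δ he

end Pool.Agent.Lib.MP_162bbe_gt.SU
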