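import Pool.Agent.Lib.MP_162bbe_gt.SU.Char
import Pool.Agent.Lib.MP_162bbe_gt.SU.Gen
import Pool.Agent.Lib.MP_162bbe_gt.SU.Count
import Pool.Agent.Lib.MP_162bbe_gt.DvDiv

/-! Elements of the lattice come from the algebra; short elements are torsion. -/

namespace Pool.Agent.Lib.MP_162bbe_gt.SU

open Module Matrix Polynomial NumberField

theorem main_mem {n : ℕ} {P : Matrix (Fin n) (Fin n) ℂ} {w : ℂ} :
    w ∈ P.charpoly.roots ↔ w ∈ spectrum ℂ P := by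
  rw [mem_roots P.charpoly_monic.ne_zero, Matrix.mem_spectrum_iff_isRoot_charpoly]

theorem main_pow {n N : ℕ} (hN : 0 < N) {P Q : Matrix (Fin n) (Fin n) ℂ} (h : P ^ N = Q ^ N) {w : ℂ}
    (hw : w ∈ P.charpoly.roots) : ∃ u ∈ Q.charpoly.roots, ‖u‖ = ‖w‖ := by
  have h1 : w ^ N ∈ spectrum ℂ (Q ^ N) := by
    rw [← h, spectrum.map_pow_of_pos _ hN]
    exact ⟨w, main_mem.1 hw, rfl⟩
  rw [spectrum.map_pow_of_pos _ hN] at h1
  obtain ⟨u, hu, h2⟩ := h1
  refine ⟨u, main_mem.2 hu, (pow_left_inj₀ (norm_nonneg _) (norm_nonneg _) hN.ne').1 ?_⟩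
  rw [← norm_pow, ← norm_pow]
  exact congrArg _ h2

theorem main_conj {K : Type} [Field K] {χ : K[X]} (hχ : χ ≠ 0) {s s' : K →+* ℂ}
    (h : InfinitePlace.mk s = InfinitePlace.mk s') {w : ℂ} (hw : w ∈ (χ.map s).roots) :
    ∃ w' ∈ (χ.map s').roots, ‖w'‖ = ‖w‖ := by
  rcases InfinitePlace.mk_eq_iff.1 h with rfl | rfl
  · exact ⟨w, hw, rfl⟩
  · refine ⟨starRingEnd ℂ w, ?_, Complex.norm_conj w⟩
    rw [mem_roots_map hχ] at hw ⊢
    have h1 := hom_eval₂ χ s (starRingEnd ℂ) w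
    rw [hw, map_zero] at h1
    exact h1.symm

open scoped ComplexOrder in
theorem main_unitary {n : ℕ} {P : Matrix (Fin n) (Fin n) ℂ} (h : Pᴴ * P = 1) {w : ℂ}
    (hw : w ∈ P.charpoly.roots) : ‖w‖ = 1 := by
  obtain ⟨v, hv, h1⟩ := exists_eigen ((mem_roots P.charpoly_monic.ne_zero).1 hw)
  have h2 : star (P *ᵥ v) ⬝ᵥ P *ᵥ v = star v ⬝ᵥ v := by
    rw [star_mulVec, dotProduct_mulVec, vecMul_vecMul, h, vecMul_one]
  rw [h1, star_smul, smul_dotProduct, dotProduct_smul, smul_smul, smul_eq_mul] at h2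
  have h3 : star w * w = 1 :=
    mul_right_cancel₀ (fun h0 => hv (dotProduct_star_self_eq_zero.1 h0)) (h2.trans (one_mul _).symm)
  have h4 := congrArg norm h3
  rw [norm_mul, norm_star, norm_one] at h4
  exact (pow_eq_one_iff_of_nonneg (norm_nonneg _) two_ne_zero).1 (by rw [sq, h4])

variable {K D A : Type} [Field K] [NumberField K] [DivisionRing D] [Algebra K D]
  [Algebra.IsCentral K D] [Module.Finite K D] [Ring A] [Algebra K A] {n m d r : ℕ}

theorem main_root (h : Num K D n m d) (e : A ≃ₐ[K] Matrix (Fin m) (Fin m) D) {s : K →+* ℂ}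
    {ρ : A →+* Matrix (Fin n) (Fin n) ℂ} (hρ : Over s ρ) {y : A} {w : ℂ} :
    w ∈ ((chi K (e y)).map s).roots ↔ w ∈ (ρ y).charpoly.roots := by
  rw [chi_roots h e hρ, Multiset.mem_nsmul_of_ne_zero]
  rintro rfl
  exact h.pos.ne (h.mul ▸ rfl)

theorem main_int (h : Num K D n m d) (e : A ≃ₐ[K] Matrix (Fin m) (Fin m) D) {s : K →+* ℂ}
    {ρ : A →+* Matrix (Fin n) (Fin n) ℂ} (hρ : Over s ρ) {y : A} (hy : IsIntegral ℤ y) (k : ℕ) :
    IsIntegral ℤ ((chi K (e y)).coeff k) := by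
  have hm : (chi K (e y)).Monic := LinearMap.charpoly_monic _
  refine (isIntegral_algHom_iff s.toIntAlgHom s.injective).1 ?_
  have h1 : s.toIntAlgHom ((chi K (e y)).coeff k) = ((chi K (e y)).map s).coeff k :=
    (coeff_map _ _).symm
  rw [h1]
  refine isIntegral_coeff_of_factors _ (by rw [(hm.map s).leadingCoeff]; exact isIntegral_one)
    (IsAlgClosed.splits _) (fun w hw => ?_) k
  have h2 := main_mem.1 ((main_root h e hρ).1 ((mem_roots (hm.map s).ne_zero).2 hw))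
  obtain ⟨p, hp, h3⟩ := hy.map ρ.toIntAlgHom
  have : Nonempty (Fin n) := ⟨⟨0, h.pos⟩⟩
  have h4 := spectrum.subset_polynomial_aeval (ρ y) (p.map (algebraMap ℤ ℂ)) ⟨w, h2, rfl⟩
  have h5 : aeval (ρ y) p = 0 := h3
  rw [aeval_map_algebraMap, h5, spectrum.zero_eq, Set.mem_singleton_iff] at h4
  exact ⟨p, hp, (eval_map _ _).symm.trans h4⟩

theorem main_lift (h : Num K D n m d) (e : A ≃ₐ[K] Matrix (Fin m) (Fin m) D) {κ : Fin r → Kind}
    (hκ : ∀ i, 0 < realRank n (κ i)) {Γ : Subgroup (Π i, factor n (κ i))}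
    [CompactSpace ((Π i, factor n (κ i)) ⧸ Γ)] (Δ : Subgroup Γ) [Δ.FiniteIndex]
    {σ : Fin r → K →+* ℂ} {ρ : Fin r → A →+* Matrix (Fin n) (Fin n) ℂ} (hρ : ∀ i, Over (σ i) (ρ i))
    (hΔ : ∀ δ ∈ Δ, ∃ x, ∀ i, ρ i x = prj κ i δ.1) (i₀ : Fin r) (γ : Γ) :
    ∃ y : A, ∀ i, ρ i y = prj κ i (γ.1 ^ (2 * n * n)) := by
  have : Nonempty (Fin n) := ⟨⟨0, h.pos⟩⟩
  have := h.simple e
  choose! f hf using hΔ
  have h1 : ∀ δ : Δ.normalCore, γ * δ.1 * γ⁻¹ ∈ Δ := fun δ =>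
    Δ.normalCore_le (Δ.normalCore_normal.conj_mem _ δ.2 γ)
  have hinv : ∀ i, prj κ i γ.1⁻¹ * prj κ i γ.1 = 1 := fun i => by
    rw [← map_mul, inv_mul_cancel, map_one]
  obtain ⟨x, hx0, hx⟩ := desc h e (hρ i₀) (fun δ : Δ.normalCore => f δ.1)
    (fun δ => f (γ * δ.1 * γ⁻¹)) (g := prj κ i₀ γ.1)
    (fun h0 => one_ne_zero (by rw [← hinv i₀, h0, mul_zero])) fun δ => by
      rw [hf _ (Δ.normalCore_le δ.2), hf _ (h1 δ), ← map_mul, ← map_mul]
      simp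
  have h2 : ∀ i, ∃ c : ℂ, c ≠ 0 ∧ ρ i x = c • prj κ i γ.1 := fun i => by
    obtain ⟨c, hc⟩ := cent_prj (hκ i) Δ.normalCore (e := prj κ i γ.1⁻¹ * ρ i x) fun δ hδ => by
      have h3 := congrArg (ρ i) (hx ⟨δ, hδ⟩)
      rw [map_mul, map_mul, hf _ (Δ.normalCore_le hδ), hf _ (h1 ⟨δ, hδ⟩)] at h3
      change prj κ i δ.1 * _ = _ * prj κ i δ.1
      rw [mul_assoc, h3, ← mul_assoc, ← mul_assoc, ← map_mul, ← map_mul]
      simp [mul_assoc]
    have h4 : ρ i x = c • prj κ i γ.1 := by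
      have h5 := congrArg (prj κ i γ.1 * ·) hc
      simpa only [← mul_assoc, ← map_mul, mul_inv_cancel, map_one, one_mul, mul_smul_comm,
        mul_one] using h5
    refine ⟨c, fun h0 => hx0 ((ρ i).injective ?_), h4⟩
    rw [h4, h0, zero_smul, map_zero]
  choose c hc0 hc using h2
  have h3 : ∀ i, σ i ((chi K (e x)).coeff 0 ^ (m * 2)) = c i ^ (2 * n * n) := fun i => by
    have h4 := congrArg (coeff · 0) (chi_pow h e (hρ i) x)
    simp only [coeff_zero_eq_eval_zero, eval_pow] at h4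
    rw [← coeff_zero_eq_eval_zero, ← coeff_zero_eq_eval_zero, coeff_map] at h4
    have h5 := det_eq_sign_charpoly_coeff (ρ i x)
    have h6 : (prj κ i γ.1).det = 1 := (γ.1 i).1.2
    rw [hc, det_smul, h6, mul_one, Fintype.card_fin, ← hc] at h5
    rw [map_pow, pow_mul, h4, mul_right_comm, mul_comm, pow_mul, h5, mul_pow, ← pow_mul (-1 : ℂ),
      mul_left_comm, pow_mul (-1 : ℂ), neg_one_sq, one_pow, one_mul, ← pow_mul, mul_comm]
  refine ⟨algebraMap K A ((chi K (e x)).coeff 0 ^ (m * 2))⁻¹ * x ^ (2 * n * n), fun i => ?_⟩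
  rw [map_mul, hρ i, map_inv₀, h3, map_pow, hc, _root_.smul_pow, map_pow, scalar_apply,
    ← smul_eq_diagonal_mul, smul_smul, inv_mul_cancel₀ (pow_ne_zero _ (hc0 i)), one_smul]

omit [NumberField K] [Algebra.IsCentral K D] [Module.Finite K D] in
theorem main_one (h : Num K D n m d) (e : A ≃ₐ[K] Matrix (Fin m) (Fin m) D) {κ : Kind}
    (hd : Ok n d κ) (ρ : A →+* Matrix (Fin n) (Fin n) ℂ) {y : A}
    {g : SpecialLinearGroup (Fin n) ℂ} (hg : g ∈ factor n κ) (hy : ρ y = g.1)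
    (hn : IsNilpotent (g.1 - 1)) : y = 1 := by
  classical
  have : Nonempty (Fin n) := ⟨⟨0, h.pos⟩⟩
  have := h.simple e
  by_contra h0
  have h1 := Nat.find_spec hn
  have h2 : 1 < Nat.find hn := by
    rw [Nat.lt_find_iff]
    intro k hk h3
    interval_cases k
    · exact one_ne_zero h3
    · exact h0 (ρ.injective (by rw [hy, map_one, ← sub_eq_zero, ← h3, pow_one]))
  obtain ⟨s, hs⟩ : ∃ s, Nat.find hn = s + 1 := ⟨Nat.find hn - 1, by omega⟩
  have h3 := rank_lt hd hg (s := s) (by omega) (hs ▸ h1)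
  have h4 : ρ ((y - 1) ^ s) = (g.1 - 1) ^ s := by rw [map_pow, map_sub, hy, map_one]
  have h5 := char_rank h.mpos h.mul (ρ.comp (e.symm : _ →+* A)) (a := e ((y - 1) ^ s)) fun h6 =>
    Nat.find_min hn (m := s) (by omega) (by rw [← h4, (map_eq_zero_iff e e.injective).1 h6, map_zero])
  have h6 : (ρ.comp (e.symm : _ →+* A)) (e ((y - 1) ^ s)) = (g.1 - 1) ^ s := by
    rw [← h4]
    exact congrArg ρ (e.symm_apply_apply _)
  rw [h6] at h5
  omega

end Pool.Agent.Lib.MP_162bbe_gt.SU
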