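import Pool.Agent.Lib.MP_162bbe_gt.SU.Defs2
import Pool.Agent.Lib.MP_162bbe_gt.TLat

/-! The gap for roots of polynomials over fields with few conjugates. -/

namespace Pool.Agent.Lib.MP_162bbe_gt.SU

open Finset MulAction Module Polynomial Pool.Agent.Lib.MP_f61260_nt IntermediateField

theorem poly_n (M r m : ℕ) : ∃ a : ℕ, ∀ C : ℝ, ∃ R : ℝ, 1 < R ∧
    ∀ (k : Type) [Field k] [NumberField k] (χ : k[X]) (S : Fin r → k →+* ℂ), χ.Monic →
      χ.natDegree = M → (∀ n, IsIntegral ℤ (χ.coeff n)) → Small m a C k (Set.range S) →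
      (∀ σ ∉ Set.range S, ∀ z, eval₂ σ z χ = 0 → ‖z‖ = 1) →
      (∀ i z, eval₂ (S i) z χ = 0 → z ≠ 0 ∧ ‖z‖ ≤ R) →
      ∀ (σ : k →+* ℂ) z, eval₂ σ z χ = 0 → ∃ n, 0 < n ∧ z ^ n = 1 := by
  classical
  obtain ⟨κ, hκ⟩ := salem_n M r m
  refine ⟨κ, fun C => ?_⟩
  obtain ⟨c, hc, hsalem⟩ := hκ C
  refine ⟨Real.exp (c * 1), Real.one_lt_exp_iff.2 (by positivity),
    fun k _ _ χ S hm hM hint hyp hcirc hγ => ?_⟩
  by_cases hall : ∀ (σ : k →+* ℂ) z, eval₂ σ z χ = 0 → ‖z‖ = 1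
  · intro σ z hz
    obtain ⟨P, -, -, -, h1, -, -, h2⟩ := exists_minpoly hm hint σ hz
    exact h2 fun w hw => (h1 w hw).elim fun σ' h => hall σ' w h
  exfalso
  push Not at hall
  obtain ⟨σ₀, w, hw, hw1⟩ := hall
  obtain ⟨i, rfl⟩ : σ₀ ∈ Set.range S := by_contra fun h => hw1 (hcirc _ h _ hw)
  have hwi := isIntegral_of_root _ hm hint hw
  let z : Qb := ⟨w, mem_algebraicClosure_iff'.2 hwi.tower_top⟩
  have hz : eval₂ (up (S i)) z χ = 0 := Subtype.ext ((eval_dn (up (S i)) _ z).symm.trans hw)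
  have hgz : ∀ g : GA, eval₂ (dn (g • up (S i))) (g z : ℂ) χ = 0 := fun g => by
    rw [eval_dn, eval_smul, hz, map_zero]; rfl
  have hT : ∀ e : k →+* Qb, e ∈ univ.image (fun i => up (S i)) ↔ dn e ∈ Set.range S := fun e => by
    rw [mem_image]
    exact ⟨fun ⟨i, _, h⟩ => ⟨i, congrArg dn h⟩, fun ⟨i, h⟩ => ⟨i, mem_univ _, dn_inj h⟩⟩
  have hd : 1 ≤ finrank ℚ k := finrank_pos
  obtain ⟨g, hg, h⟩ := hsalem k χ (univ.image fun i => up (S i)) (up (S i)) z 1 hm hM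
    (card_image_le.trans (by simp)) zero_le_one (by rw [one_pow]; exact_mod_cast hd) hz
    ((isIntegral_algHom_iff (algebraMap Qb ℂ).toIntAlgHom Subtype.val_injective).1 hwi)
    (fun h => (hγ i w hw).1 (congrArg Subtype.val h)) hw1
    (fun g hg => hcirc _ (fun h => hg ((hT _).2 h)) _ (hgz g)) fun k₁ hk₁ => by
      have ho : Orb (⊤ : Subgroup GA) ((up (S i)).comp (algebraMap k₁ k)) (finrank ℚ k) :=
        (orb_top _).mono (Submodule.finrank_le k₁.toSubmodule)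
      rcases hyp with h | h | h
      · obtain ⟨n, hn⟩ := solv_fix (k := k)
        obtain ⟨j, hj, h⟩ := tup_solv ((up (S i)).comp (algebraMap k₁ k)) (n := n)
          (fun ν hν => RingHom.ext fun x => RingHom.congr_fun (hn ν hν (up (S i))) x) ho
        exact ⟨j + 1, _, by omega, by omega, h, Or.inr (Nat.le_mul_of_pos_left _ (by omega))⟩
      · obtain ⟨N, hN, hN'⟩ := idx_field (normalClosure ℚ k ℂ)
        rcases tup_poly _ m ho N (fun g => hN' _ _ fun x =>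
          (dn (g • up (S i))).toRatAlgHom.fieldRange_le_normalClosure ⟨x, rfl⟩) hN with h' | h'
        · exact ⟨1, _, le_rfl, by omega, h', Or.inr (by simp)⟩
        · exact ⟨m + 1, _, by omega, by omega, h',
            Or.inr (h.trans (Nat.le_mul_of_pos_left _ (by omega)))⟩
      · obtain ⟨j, σ, hj, hj', hσ, h⟩ := h _ ⟨i, rfl⟩ k₁ fun σ hσ => by
          obtain ⟨g, hg⟩ := emb_trans (up (S i)) (up σ)
          refine (hT (up σ)).1 (hg ▸ hk₁ g (mem_stab.2 fun x => ?_))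
          exact (RingHom.congr_fun hg x).trans (Subtype.ext (hσ x x.2))
        exact ⟨j, _, hj, by omega, tup_field _ σ hσ, Or.inl (by rw [one_mul]; exact h)⟩
  obtain ⟨i', hi'⟩ := (hT _).1 hg
  exact absurd (hγ i' _ (hi' ▸ hgz g)).2 (not_le.2 h)

end Pool.Agent.Lib.MP_162bbe_gt.SU
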