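import Mathlib

/-! The groups `SL(n, ℝ)`, `SL(n, ℂ)`, `SU(p, n - p)`, `SL(n / 2, ℍ)` as subgroups of `SL(n, ℂ)`. -/

namespace Pool.Agent.Lib.MP_162bbe_gt.SU

open Matrix NumberField

/-- The four kinds of simple factors. -/
inductive Kind
  | real
  | complex
  | unitary (p : ℕ)
  | quat

/-- The Hermitian form of signature `(p, n - p)`. -/
def form (n p : ℕ) : Matrix (Fin n) (Fin n) ℂ := diagonal fun k => if (k : ℕ) < p then 1 else -1

/-- The antidiagonal matrix with entries `1` in the first `n / 2` rows and `-1` in the others. -/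
def jq (n : ℕ) : Matrix (Fin n) (Fin n) ℂ := (form n (n / 2)).submatrix id Fin.rev

/-- The group `SU(p, n - p)`. -/
noncomputable def suGroup (n p : ℕ) : Subgroup (SpecialLinearGroup (Fin n) ℂ) where
  carrier := {g | g.1ᴴ * form n p * g.1 = form n p}
  one_mem' := by simp
  mul_mem' := fun {a b} ha hb => by
    change (a.1 * b.1)ᴴ * form n p * (a.1 * b.1) = form n p
    rw [conjTranspose_mul, mul_assoc, mul_assoc, ← mul_assoc (form n p), ← mul_assoc a.1ᴴ,
      ← mul_assoc a.1ᴴ, ha, ← mul_assoc, hb]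
  inv_mem' := fun {a} ha => by
    have h : a.1 * (a⁻¹).1 = 1 := congrArg Subtype.val (mul_inv_cancel a)
    change (a⁻¹).1ᴴ * form n p * (a⁻¹).1 = form n p
    conv_lhs => rw [← ha]
    rw [mul_assoc, mul_assoc, h, mul_one, ← mul_assoc, ← conjTranspose_mul, h,
      conjTranspose_one, one_mul]

/-- The group `SL(n / 2, ℍ) = SU*(n)`. -/
noncomputable def quatGroup (n : ℕ) : Subgroup (SpecialLinearGroup (Fin n) ℂ) where
  carrier := {g | g.1 * jq n = jq n * g.1.map (starRingEnd ℂ)}
  one_mem' := by simp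
  mul_mem' := fun {a b} ha hb => by
    change a.1 * b.1 * jq n = jq n * (a.1 * b.1).map _
    rw [mul_assoc, hb, ← mul_assoc, ha, Matrix.map_mul, mul_assoc]
  inv_mem' := fun {a} ha => by
    have h : a.1 * (a⁻¹).1 = 1 := congrArg Subtype.val (mul_inv_cancel a)
    have h' : (a⁻¹).1 * a.1 = 1 := congrArg Subtype.val (inv_mul_cancel a)
    change (a⁻¹).1 * jq n = jq n * (a⁻¹).1.map _
    rw [← one_mul (jq n * _), ← h', mul_assoc, ← mul_assoc a.1, ha, mul_assoc,
      ← Matrix.map_mul, h, Matrix.map_one _ (map_zero _) (map_one _), mul_one]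

/-- The groups `SL(n, ℝ)`, `SL(n, ℂ)`, `SU(p, n - p)` and `SL(n / 2, ℍ)`. -/
noncomputable def factor (n : ℕ) : Kind → Subgroup (SpecialLinearGroup (Fin n) ℂ)
  | .real => (SpecialLinearGroup.map (algebraMap ℝ ℂ)).range
  | .complex => ⊤
  | .unitary p => suGroup n p
  | .quat => quatGroup n

/-- The real rank of `factor n κ`. -/
def realRank (n : ℕ) : Kind → ℕ
  | .real => n - 1
  | .complex => n - 1
  | .unitary p => min p (n - p)
  | .quat => if Even n then n / 2 - 1 else 0

/-- The condition on the index `d`. -/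
def Ok (n d : ℕ) : Kind → Prop
  | .real => d = n ∧ Odd n
  | .complex => d = n ∧ Odd n
  | .unitary p => 2 * min p (n - p) < d ∨ Odd d ∧ min p (n - p) < d
  | .quat => d = n ∧ n % 4 = 2

/-- The ring homomorphism `ρ` extends the embedding `s`. -/
def Over {K A : Type} [Field K] [Ring A] [Algebra K A] {n : ℕ} (s : K →+* ℂ)
    (ρ : A →+* Matrix (Fin n) (Fin n) ℂ) : Prop :=
  ∀ a, ρ (algebraMap K A a) = scalar (Fin n) (s a)

/-- `A` is a matrix algebra over the central division algebra `D` of index `d`, with an involution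
whose unitary group is compact at the places that do not lie over the places of the `σ i`; a
subgroup of finite index of `Γ` comes from the unitary group of the order `O`. -/
structure Datum {G : Type} [Group G] {n r : ℕ} (π : Fin r → G → Matrix (Fin n) (Fin n) ℂ) (d : ℕ)
    (Γ : Subgroup G) (K D A : Type) [Field K] [StarRing K] [DivisionRing D] [Algebra K D] [Ring A]
    [StarRing A] [Algebra K A] where
  m : ℕ
  e : A ≃ₐ[K] Matrix (Fin m) (Fin m) D
  O : Subring A
  σ : Fin r → K →+* ℂ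
  ρ : Fin r → A →+* Matrix (Fin n) (Fin n) ℂ
  Δ : Subgroup Γ
  numberField : NumberField K
  central : Algebra.IsCentral K D
  dim : Module.finrank K D = d ^ 2
  deg : m * d = n
  star_smul : StarModule K A
  finite : Module.Finite ℤ O
  lies_over : ∀ i, Over (σ i) (ρ i)
  definite : ∀ s : K →+* ℂ, (∀ i, InfinitePlace.mk s ≠ InfinitePlace.mk (σ i) ∧
      InfinitePlace.mk s ≠ InfinitePlace.mk ((σ i).comp (starRingEnd K))) →
    ∃ ρ' : A →+* Matrix (Fin n) (Fin n) ℂ, Over s ρ' ∧ ∀ x, ρ' (star x) = (ρ' x)ᴴ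
  finiteIndex : Δ.FiniteIndex
  mem : ∀ δ ∈ Δ, ∃ x ∈ O, x ∈ unitary A ∧ ∀ i, ρ i x = π i δ

/-- `Γ` comes from the unitary group of a central simple algebra of index `d`. -/
def UnitaryType {G : Type} [Group G] {n r : ℕ} (π : Fin r → G → Matrix (Fin n) (Fin n) ℂ) (d : ℕ)
    (Γ : Subgroup G) : Prop :=
  ∃ (K D A : Type) (_ : Field K) (_ : StarRing K) (_ : DivisionRing D) (_ : Algebra K D)
    (_ : Ring A) (_ : StarRing A) (_ : Algebra K A), Nonempty (Datum π d Γ K D A)

/-- A uniformly discrete family of subgroups. -/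
def UnifDiscrete {G : Type} [Group G] [TopologicalSpace G] (F : Set (Subgroup G)) : Prop :=
  ∃ U ∈ nhds (1 : G), ∀ Γ ∈ F, ∀ g : G, ∀ γ ∈ Γ, g * γ * g⁻¹ ∈ U → γ = 1

end Pool.Agent.Lib.MP_162bbe_gt.SU
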