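import Pool.Agent.Lib.MP_162bbe_gt.SU.Base
import Pool.Agent.Lib.MP_162bbe_gt.SU.Defs

/-! Characteristic polynomials and ranks in a matrix algebra over a division algebra. -/

namespace Pool.Agent.Lib.MP_162bbe_gt.SU

open Module Matrix Polynomial

section pi

variable (K : Type) {D : Type} [Field K] [Ring D] [Algebra K D] [Module.Finite K D] {m : ℕ}

/-- The characteristic polynomial over `K` of `Y` acting on row vectors. -/
noncomputable def chi (Y : Matrix (Fin m) (Fin m) D) : K[X] :=
  (Y.toLinearMapRight'.restrictScalars K).charpoly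

theorem chi_pi [Infinite K] (Y : Matrix (Fin m) (Fin m) D) :
    (LinearMap.mulRight K Y).charpoly = chi K Y ^ m := by
  refine Polynomial.funext fun t => ?_
  rw [eval_pow, chi, LinearMap.eval_charpoly, LinearMap.eval_charpoly]
  have h := LinearMap.det_pi (ι := Fin m) fun _ =>
    algebraMap K (End K (Fin m → D)) t - Y.toLinearMapRight'.restrictScalars K
  rw [Finset.prod_const, Finset.card_univ, Fintype.card_fin] at h
  exact (congrArg LinearMap.det (LinearMap.ext fun X => rfl)).trans h

theorem chi_self (g : Matrix (Fin m) (Fin m) K) : chi K g = g.charpoly := by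
  rw [← charpoly_transpose, ← charpoly_toLin']
  refine congrArg LinearMap.charpoly (LinearMap.ext fun v => ?_)
  rw [toLin'_apply, mulVec_transpose]
  rfl

end pi

variable {K D A : Type} [Field K] [CharZero K] [DivisionRing D] [Algebra K D]
  [Algebra.IsCentral K D] [Module.Finite K D] [Ring A] [Algebra K A] {n m d : ℕ}

/-- The numerical data. -/
structure Num (K D : Type) [Field K] [DivisionRing D] [Algebra K D] (n m d : ℕ) : Prop where
  pos : 0 < n
  dim : finrank K D = d ^ 2
  mul : m * d = n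

omit [CharZero K] [Algebra.IsCentral K D] [Module.Finite K D] in
theorem Num.mpos (h : Num K D n m d) : 0 < m := Nat.pos_of_mul_pos_right (h.mul ▸ h.pos)

omit [CharZero K] [Algebra.IsCentral K D] [Module.Finite K D] in
theorem Num.simple (h : Num K D n m d) (e : A ≃ₐ[K] Matrix (Fin m) (Fin m) D) : IsSimpleRing A :=
  have : Nonempty (Fin m) := ⟨⟨0, h.mpos⟩⟩
  IsSimpleRing.of_ringEquiv e.symm.toRingEquiv inferInstance

omit [CharZero K] [Algebra.IsCentral K D] in
theorem Num.rank (h : Num K D n m d) (e : A ≃ₐ[K] Matrix (Fin m) (Fin m) D) :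
    finrank K A = n ^ 2 := by
  rw [e.toLinearEquiv.finrank_eq, Module.finrank_matrix, h.dim, ← h.mul, Fintype.card_fin]
  ring

theorem chi_pow (h : Num K D n m d) (e : A ≃ₐ[K] Matrix (Fin m) (Fin m) D) {s : K →+* ℂ}
    {ρ : A →+* Matrix (Fin n) (Fin n) ℂ} (hρ : Over s ρ) (y : A) :
    (chi K (e y)).map s ^ m = (ρ y).charpoly ^ n := by
  have := h.simple e
  have := Algebra.IsCentral.of_algEquiv K _ _ e.symm
  have : Module.Finite K A := Module.Finite.equiv e.symm.toLinearEquiv
  let _ : Algebra K ℂ := s.toAlgebra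
  have h1 := base_char ({ ρ with commutes' := hρ } : A →ₐ[K] _) h.pos (h.rank e)
    (LinearMap.mulRight K y) (LinearMap.mulRight ℂ (ρ y)) fun a => (map_mul ρ a y).symm
  have h2 : e.toLinearEquiv.conj (LinearMap.mulRight K y) = LinearMap.mulRight K (e y) :=
    LinearMap.ext fun X => by simp
  rw [← e.toLinearEquiv.charpoly_conj, h2, chi_pi, chi_pi, chi_self, Polynomial.map_pow] at h1
  exact h1.symm

theorem chi_roots (h : Num K D n m d) (e : A ≃ₐ[K] Matrix (Fin m) (Fin m) D) {s : K →+* ℂ}
    {ρ : A →+* Matrix (Fin n) (Fin n) ℂ} (hρ : Over s ρ) (y : A) :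
    ((chi K (e y)).map s).roots = d • (ρ y).charpoly.roots := by
  have h1 := congrArg roots (chi_pow h e hρ y)
  rw [roots_pow, roots_pow] at h1
  have h2 : n • (ρ y).charpoly.roots = m • d • (ρ y).charpoly.roots := by
    rw [smul_smul, h.mul]
  rw [h2] at h1
  ext z
  have h3 := congrArg (Multiset.count z) h1
  rw [Multiset.count_nsmul, Multiset.count_nsmul] at h3
  exact Nat.eq_of_mul_eq_mul_left h.mpos h3

omit [CharZero K] in
theorem desc (h : Num K D n m d) (e : A ≃ₐ[K] Matrix (Fin m) (Fin m) D) {s : K →+* ℂ}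
    {ρ : A →+* Matrix (Fin n) (Fin n) ℂ} (hρ : Over s ρ) {W : Type} (u v : W → A)
    {g : Matrix (Fin n) (Fin n) ℂ} (hg : g ≠ 0) (hw : ∀ w, g * ρ (u w) = ρ (v w) * g) :
    ∃ x : A, x ≠ 0 ∧ ∀ w, x * u w = v w * x := by
  have := h.simple e
  have := Algebra.IsCentral.of_algEquiv K _ _ e.symm
  let _ : Algebra K ℂ := s.toAlgebra
  exact base_desc ({ ρ with commutes' := hρ } : A →ₐ[K] _) h.pos (h.rank e) u v hg hw

theorem char_rank {D : Type} [DivisionRing D] (hm : 0 < m) (hn : m * d = n)
    (ρ : Matrix (Fin m) (Fin m) D →+* Matrix (Fin n) (Fin n) ℂ) {a : Matrix (Fin m) (Fin m) D}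
    (ha : a ≠ 0) : d ≤ (ρ a).rank := by
  obtain ⟨k, hk⟩ := Function.ne_iff.1 ha
  obtain ⟨l, hl⟩ := Function.ne_iff.1 hk
  have hl' : a k l ≠ 0 := hl
  have h1 : single l l (1 : D) = single l k (a k l)⁻¹ * a * single l l 1 := by
    rw [single_mul_mul_single, inv_mul_cancel₀ hl', mul_one]
  have h2 : ∀ j, trace (ρ (single j j 1)) = trace (ρ (single l l 1)) := fun j => by
    have h3 := trace_mul_comm (ρ (single j l 1)) (ρ (single l j 1))
    rwa [← map_mul, ← map_mul, single_mul_single_same, single_mul_single_same, mul_one] at h3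
  have h3 : ∑ j, single j j (1 : D) = (1 : Matrix (Fin m) (Fin m) D) := by
    ext i j
    simp [Matrix.sum_apply, single_apply, one_apply, ite_and, eq_comm]
  have h4 : (m : ℂ) * trace (ρ (single l l 1)) = m * d := by
    have h5 := congrArg (fun x => trace (ρ x)) h3
    simp only [map_sum, trace_sum, h2, Finset.sum_const, Finset.card_univ, Fintype.card_fin,
      nsmul_eq_mul, map_one, trace_one] at h5
    rw [h5, ← hn, Nat.cast_mul]
  have h5 : IsIdempotentElem (toLin' (ρ (single l l 1))) := by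
    change toLin' _ ∘ₗ toLin' _ = _
    rw [← toLin'_mul, ← map_mul, single_mul_single_same, mul_one]
  have h6 := (LinearMap.IsIdempotentElem.isProj_range _ h5).trace
  rw [trace_toLin'_eq, mul_left_cancel₀ (Nat.cast_ne_zero.2 hm.ne') h4, Nat.cast_inj] at h6
  have h7 : (ρ (single l l 1)).rank = d := h6.symm
  rw [← h7, h1, map_mul, map_mul]
  exact (rank_mul_le_left _ _).trans (rank_mul_le_right _ _)

end Pool.Agent.Lib.MP_162bbe_gt.SU
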