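import Mathlib

/-! Base change of a central simple algebra. -/

namespace Pool.Agent.Lib.MP_162bbe_gt.SU

open Module TensorProduct

variable {K L A : Type} [Field K] [Field L] [Algebra K L] [Ring A] [Algebra K A] [IsSimpleRing A]
  [Algebra.IsCentral K A]

theorem base_ind {B ι : Type} [Ring B] [Nontrivial B] [Algebra L B] [Algebra K B]
    [IsScalarTower K L B] (ρ : A →ₐ[K] B) {c : ι → L} (hc : LinearIndependent K c) (s : Finset ι) :
    ∀ a : ι → A, ∑ j ∈ s, c j • ρ (a j) = 0 → ∀ j ∈ s, a j = 0 := by
  classical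
  induction s using Finset.induction_on with
  | empty => intro a _ j hj; simp at hj
  | insert i s hi ih =>
    intro a ha
    have h0 : a i = 0 := by
      by_contra h0
      let I : TwoSidedIdeal A := TwoSidedIdeal.mk'
        {x | ∃ b : ι → A, b i = x ∧ ∑ j ∈ insert i s, c j • ρ (b j) = 0} ⟨0, rfl, by simp⟩
        (by
          rintro _ _ ⟨b, rfl, hb⟩ ⟨b', rfl, hb'⟩
          refine ⟨b + b', rfl, ?_⟩
          simp only [Pi.add_apply, map_add, smul_add, Finset.sum_add_distrib, hb, hb', add_zero])
        (by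
          rintro _ ⟨b, rfl, hb⟩
          refine ⟨-b, rfl, ?_⟩
          simp only [Pi.neg_apply, map_neg, smul_neg, Finset.sum_neg_distrib, hb, neg_zero])
        (by
          rintro x _ ⟨b, rfl, hb⟩
          refine ⟨fun j => x * b j, rfl, ?_⟩
          simp only [map_mul, ← mul_smul_comm, ← Finset.mul_sum, hb, mul_zero])
        (by
          rintro _ x ⟨b, rfl, hb⟩
          refine ⟨fun j => b j * x, rfl, ?_⟩
          simp only [map_mul, ← smul_mul_assoc, ← Finset.sum_mul, hb, zero_mul])
      have h1 : (1 : A) ∈ I := IsSimpleRing.one_mem_of_ne_zero_mem I h0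
        ((TwoSidedIdeal.mem_mk' ..).2 ⟨a, rfl, ha⟩)
      obtain ⟨b, hb1, hb⟩ := (TwoSidedIdeal.mem_mk' ..).1 h1
      have h2 : ∀ j ∈ insert i s, ∃ k : K, b j = algebraMap K A k := by
        intro j hj
        rcases Finset.mem_insert.1 hj with rfl | hj
        · exact ⟨1, by rw [hb1, map_one]⟩
        refine (Algebra.IsCentral.mem_center_iff K).1 (Subalgebra.mem_center_iff.2 fun y => ?_)
        refine sub_eq_zero.1 (ih (fun j => y * b j - b j * y) ?_ j hj)
        have h3 : ∑ j ∈ insert i s, c j • ρ (y * b j - b j * y) = 0 := by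
          have h4 : ∀ j, c j • ρ (y * b j - b j * y) =
              ρ y * c j • ρ (b j) - (c j • ρ (b j)) * ρ y := fun j => by
            rw [map_sub, map_mul, map_mul, smul_sub, smul_mul_assoc, mul_smul_comm]
          simp only [h4, Finset.sum_sub_distrib, ← Finset.mul_sum, ← Finset.sum_mul, hb, mul_zero,
            zero_mul, sub_zero]
        rwa [Finset.sum_insert hi, hb1, mul_one, one_mul, sub_self, map_zero, smul_zero,
          zero_add] at h3
      choose! k hk using h2
      have h3 : ∑ j ∈ insert i s, k j • c j = 0 := by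
        apply (algebraMap L B).injective
        rw [map_sum, map_zero, ← hb]
        refine Finset.sum_congr rfl fun j hj => ?_
        rw [hk j hj, AlgHom.commutes, Algebra.smul_def, map_mul, ← IsScalarTower.algebraMap_apply,
          Algebra.smul_def, Algebra.commutes]
      have h4 := linearIndependent_iff'.1 hc _ k h3 i (Finset.mem_insert_self _ _)
      have h5 := hk i (Finset.mem_insert_self _ _)
      rw [h4, map_zero, hb1] at h5
      exact one_ne_zero h5
    rw [Finset.sum_insert hi, h0, map_zero, smul_zero, zero_add] at ha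
    intro j hj
    rcases Finset.mem_insert.1 hj with rfl | hj
    · exact h0
    · exact ih a ha j hj

variable {n : ℕ} (ρ : A →ₐ[K] Matrix (Fin n) (Fin n) L)

theorem base_bij (hn : 0 < n) (hA : finrank K A = n ^ 2) :
    Function.Bijective (ρ.toLinearMap.liftBaseChange L) := by
  have : Nonempty (Fin n) := ⟨⟨0, hn⟩⟩
  have : Module.Finite K A := Module.finite_of_finrank_pos (by rw [hA]; positivity)
  have h1 : Function.Injective (ρ.toLinearMap.liftBaseChange L) := by
    rw [injective_iff_map_eq_zero]
    intro t ht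
    obtain ⟨a, rfl⟩ := TensorProduct.eq_repr_basis_left (Basis.ofVectorSpace K L) t
    rw [Finsupp.sum, map_sum] at ht
    exact Finset.sum_eq_zero fun j hj => by
      rw [base_ind ρ (Basis.ofVectorSpace K L).linearIndependent _ a ht j hj]
      exact tmul_zero _ _
  refine ⟨h1, (LinearMap.injective_iff_surjective_of_finrank_eq_finrank ?_).1 h1⟩
  rw [Module.finrank_baseChange, hA, Module.finrank_matrix]
  simp [sq]

theorem base_char [Module.Finite K A] (hn : 0 < n) (hA : finrank K A = n ^ 2) (f : A →ₗ[K] A)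
    (F : Matrix (Fin n) (Fin n) L →ₗ[L] Matrix (Fin n) (Fin n) L) (h : ∀ a, F (ρ a) = ρ (f a)) :
    F.charpoly = f.charpoly.map (algebraMap K L) := by
  let E := LinearEquiv.ofBijective _ (base_bij ρ hn hA)
  rw [← LinearMap.charpoly_baseChange, ← E.charpoly_conj]
  refine congrArg _ (LinearMap.ext fun g => ?_)
  obtain ⟨t, rfl⟩ := E.surjective g
  rw [LinearEquiv.conj_apply_apply, E.symm_apply_apply]
  induction t using TensorProduct.induction_on with
  | zero => simp
  | tmul c a =>
    change F (c • ρ a) = c • ρ (f a)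
    rw [map_smul, h]
  | add t u ht hu => simp only [map_add, ht, hu]

theorem base_desc (hn : 0 < n) (hA : finrank K A = n ^ 2) {W : Type} (u v : W → A)
    {g : Matrix (Fin n) (Fin n) L} (hg : g ≠ 0) (h : ∀ w, g * ρ (u w) = ρ (v w) * g) :
    ∃ x : A, x ≠ 0 ∧ ∀ w, x * u w = v w * x := by
  have : Nonempty (Fin n) := ⟨⟨0, hn⟩⟩
  obtain ⟨t, rfl⟩ := (base_bij ρ hn hA).2 g
  obtain ⟨a, rfl⟩ := TensorProduct.eq_repr_basis_left (Basis.ofVectorSpace K L) t
  rw [Finsupp.sum, map_sum] at hg h
  obtain ⟨j, hj, -⟩ := Finset.exists_ne_zero_of_sum_ne_zero hg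
  refine ⟨a j, Finsupp.mem_support_iff.1 hj, fun w => sub_eq_zero.1 (base_ind ρ
    (Basis.ofVectorSpace K L).linearIndependent _ (fun j => a j * u w - v w * a j) ?_ j hj)⟩
  have h1 := sub_eq_zero.2 (h w)
  rw [Finset.sum_mul, Finset.mul_sum, ← Finset.sum_sub_distrib] at h1
  rw [← h1]
  refine Finset.sum_congr rfl fun j _ => ?_
  change _ = (Basis.ofVectorSpace K L j • ρ (a j)) * _ - _ * (Basis.ofVectorSpace K L j • ρ (a j))
  rw [map_sub, map_mul, map_mul, smul_sub, smul_mul_assoc, mul_smul_comm]

end Pool.Agent.Lib.MP_162bbe_gt.SU
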