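import Pool.Agent.Lib.MP_162bbe_gt.SU.Gen

/-! The closure of the conjugacy class of a unipotent element contains the identity. -/

namespace Pool.Agent.Lib.MP_162bbe_gt.SU

open Matrix NormedSpace Topology Filter
open scoped ComplexOrder Matrix.Norms.Frobenius

variable {n : ℕ}

theorem det_exp_one {X : Matrix (Fin n) (Fin n) ℂ} (h : X.IsHermitian) (h0 : X.trace = 0) :
    (exp X).det = 1 := by
  have h1 := h.spectral_theorem
  have h2 := h.trace_eq_sum_eigenvalues
  rw [Unitary.conjStarAlgAut_apply] at h1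
  let U := Unitary.toUnits h.eigenvectorUnitary
  have h3 : X = U.1 * diagonal (RCLike.ofReal ∘ h.eigenvalues) * (U⁻¹).1 := h1
  rw [h3, Matrix.exp_units_conj, det_units_conj, exp_diagonal, det_diagonal]
  simp only [Pi.coe_exp, ← Complex.exp_eq_exp_ℂ, ← Complex.exp_sum]
  exact (congrArg Complex.exp (h2.symm.trans h0)).trans Complex.exp_zero

theorem frob_sq (M : Matrix (Fin n) (Fin n) ℂ) : ‖M‖ ^ 2 = (trace (Mᴴ * M)).re := by
  rw [frobenius_norm_def, ← Real.rpow_natCast, ← Real.rpow_mul (by positivity)]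
  simp only [trace, diag, mul_apply, conjTranspose_apply, Complex.re_sum]
  rw [Finset.sum_comm]
  simp [Complex.sq_norm, Complex.normSq_apply]

theorem trace_comm {X : Matrix (Fin n) (Fin n) ℂ} (h : X.IsHermitian)
    (M : Matrix (Fin n) (Fin n) ℂ) : trace (star (X * M - M * X) * M + star M * (X * M - M * X)) =
      2 * trace ((M * Mᴴ - Mᴴ * M) * X) := by
  rw [star_eq_conjTranspose, star_eq_conjTranspose, conjTranspose_sub, conjTranspose_mul,
    conjTranspose_mul, h.eq, sub_mul, mul_sub, sub_mul, trace_add, trace_sub, trace_sub, trace_sub,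
    ← mul_assoc, ← mul_assoc, trace_mul_cycle Mᴴ X M, trace_mul_cycle Mᴴ M X]
  ring

set_option backward.isDefEq.respectTransparency false in
theorem kn (G : Subgroup (SpecialLinearGroup (Fin n) ℂ)) {L : Set (Matrix (Fin n) (Fin n) ℂ)}
    (hL : IsClosed L) (hc : ∀ g ∈ G, ∀ N ∈ L, g.1 * N * (g⁻¹).1 ∈ L)
    (he : ∀ N ∈ L, ∀ (t : ℝ) (g : SpecialLinearGroup (Fin n) ℂ),
      g.1 = exp (t • (N * Nᴴ - Nᴴ * N)) → g ∈ G)
    {N : Matrix (Fin n) (Fin n) ℂ} (hN : N ∈ L) (hn : IsNilpotent N) :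
    0 ∈ closure {M | ∃ g ∈ G, M = g.1 * N * (g⁻¹).1} := by
  have hinv : ∀ g : SpecialLinearGroup (Fin n) ℂ, (g⁻¹).1 * g.1 = 1 := fun g =>
    congrArg Subtype.val (inv_mul_cancel g)
  have : ProperSpace (Matrix (Fin n) (Fin n) ℂ) := FiniteDimensional.proper ℂ _
  obtain ⟨M, hM, hmin⟩ := (isClosed_closure (s := {M | ∃ g ∈ G, M = g.1 * N * (g⁻¹).1})
    ).exists_infDist_eq_dist ⟨_, subset_closure ⟨1, G.one_mem, rfl⟩⟩ 0
  have hML : M ∈ L := closure_minimal (by
    rintro _ ⟨g, hg, rfl⟩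
    exact hc g hg N hN) hL hM
  obtain ⟨k, hk⟩ := hn
  have hMk : M ^ k = 0 := closure_minimal (t := {M | M ^ k = 0}) (by
    rintro _ ⟨g, hg, rfl⟩
    have h1 := Units.conj_pow (SpecialLinearGroup.toGL g) N k
    rw [hk, mul_zero, zero_mul] at h1
    exact h1) (isClosed_eq (continuous_pow k) continuous_const) hM
  set X := M * Mᴴ - Mᴴ * M with hX
  have hXh : X.IsHermitian := (isHermitian_mul_conjTranspose_self M).sub
    (isHermitian_conjTranspose_mul_self M)
  have hle : ∀ t : ℝ, ‖M‖ ≤ ‖exp (t • X) * M * exp (t • -X)‖ := fun t => by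
    let g : SpecialLinearGroup (Fin n) ℂ := ⟨exp (t • X), det_exp_one (hXh.smul (.all t)) (by
      rw [trace_smul, hX, trace_sub, trace_mul_comm, sub_self, smul_zero])⟩
    have h1 : (g⁻¹).1 = exp (t • -X) := by
      rw [smul_neg, Matrix.exp_neg]
      exact (inv_eq_left_inv (hinv g)).symm
    have h2 : g.1 * M * (g⁻¹).1 ∈ closure {M | ∃ g ∈ G, M = g.1 * N * (g⁻¹).1} :=
      map_mem_closure (f := fun M => g.1 * M * (g⁻¹).1) (by fun_prop) hM (by
        rintro _ ⟨a, ha, rfl⟩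
        exact ⟨g * a, mul_mem (he M hML t g rfl) ha, by
          rw [_root_.mul_inv_rev]
          change _ = g.1 * a.1 * N * ((a⁻¹).1 * (g⁻¹).1)
          simp only [mul_assoc]⟩)
    have h3 := Metric.infDist_le_dist_of_mem (x := 0) h2
    rwa [hmin, dist_zero_left, dist_zero_left, h1] at h3
  have hd : HasDerivAt (fun t : ℝ => exp (t • X) * M * exp (t • -X)) (X * M - M * X) 0 := by
    have h1 := ((hasDerivAt_exp_smul_const X (0 : ℝ)).mul_const M).mul
      (hasDerivAt_exp_smul_const (-X) (0 : ℝ))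
    simp only [zero_smul, exp_zero, one_mul, mul_one, mul_neg, ← sub_eq_add_neg] at h1
    exact h1
  let T : Matrix (Fin n) (Fin n) ℂ →L[ℝ] ℝ :=
    Complex.reCLM.comp (traceLinearMap (Fin n) ℝ ℂ).toContinuousLinearMap
  have h1 := T.hasFDerivAt.comp_hasDerivAt _ (hd.star.mul hd)
  have h2 := IsLocalMin.hasDerivAt_eq_zero (Eventually.of_forall fun t => by
    refine (frob_sq _).symm.trans_le (LE.le.trans_eq ?_ (frob_sq _))
    simp only [zero_smul, exp_zero, one_mul, mul_one]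
    exact pow_le_pow_left₀ (norm_nonneg _) (hle t) 2) h1
  simp only [zero_smul, exp_zero, one_mul, mul_one] at h2
  have h4 : X = 0 := by
    have h5 : (trace (star (X * M - M * X) * M + star M * (X * M - M * X))).re = 0 := h2
    rw [trace_comm hXh, ← hX] at h5
    nth_rewrite 1 [← hXh.eq] at h5
    simpa [← frob_sq] using h5
  have h5 : Commute Mᴴ M := (sub_eq_zero.1 h4).symm
  rwa [trace_conjTranspose_mul_self_eq_zero_iff.1
    (isNilpotent_trace_of_isNilpotent (h5.isNilpotent_mul_left ⟨k, hMk⟩)).eq_zero] at hM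

theorem kn_nhds (G : Subgroup (SpecialLinearGroup (Fin n) ℂ)) (u : G)
    {N : Matrix (Fin n) (Fin n) ℂ} (h : 0 ∈ closure {M | ∃ g ∈ G, M = g.1 * N * (g⁻¹).1})
    {φ : Matrix (Fin n) (Fin n) ℂ → Matrix (Fin n) (Fin n) ℂ} (hφ : ContinuousAt φ 0) (h0 : φ 0 = 1)
    (h1 : ∀ g : SpecialLinearGroup (Fin n) ℂ, φ (g.1 * N * (g⁻¹).1) = g.1 * u.1.1 * (g⁻¹).1)
    {W : Set G} (hW : W ∈ 𝓝 1) : ∃ g, g * u * g⁻¹ ∈ W := by
  have h4 : IsInducing fun g : G => g.1.1 := IsInducing.subtypeVal.comp IsInducing.subtypeVal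
  rw [h4.nhds_eq_comap] at hW
  obtain ⟨V, hV, h2⟩ := mem_comap.1 hW
  obtain ⟨_, h3, g, hg, rfl⟩ := mem_closure_iff_nhds.1 h _ (hφ (by rw [h0]; exact hV))
  exact ⟨⟨g, hg⟩, h2 (show g.1 * u.1.1 * (g⁻¹).1 ∈ V from h1 g ▸ h3)⟩

set_option backward.isDefEq.respectTransparency false in
theorem contract_lin (G : Subgroup (SpecialLinearGroup (Fin n) ℂ)) {J : Matrix (Fin n) (Fin n) ℂ}
    (hJ : Jᵀ = J ∨ Jᵀ = -J) (hG : ∀ g, g ∈ G ↔ g.1 * J = J * g.1.map (starRingEnd ℂ)) (u : G)
    (hu : IsNilpotent (u.1.1 - 1)) {W : Set G} (hW : W ∈ 𝓝 1) : ∃ g, g * u * g⁻¹ ∈ W := by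
  let c : Matrix (Fin n) (Fin n) ℂ →+* Matrix (Fin n) (Fin n) ℂ := (starRingEnd ℂ).mapMatrix
  have hc : Continuous c := continuous_id.matrix_map Complex.continuous_conj
  have hG' : ∀ g ∈ G, SemiconjBy J (c g.1) g.1 := fun g hg => ((hG g).1 hg).symm
  refine kn_nhds G u (kn G (L := {N | SemiconjBy J (c N) N})
    (isClosed_eq (by fun_prop) (by fun_prop)) (fun g hg N hN => ?_) (fun N hN t g hg => ?_) ?_ hu)
    (φ := fun M => M + 1) (by fun_prop) (zero_add 1) (fun g => ?_) hW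
  · rw [Set.mem_ofPred_eq, map_mul, map_mul]
    exact ((hG' g hg).mul_right hN).mul_right (hG' _ (inv_mem hg))
  · have h1 : SemiconjBy J (c Nᴴ) Nᴴ := by
      have h2 := congrArg transpose hN.eq
      rw [transpose_mul, transpose_mul] at h2
      have h3 : c Nᴴ = Nᵀ := by ext; simp [c]
      rw [h3]
      rcases hJ with h | h <;> rw [h] at h2
      · exact h2.symm
      · rw [mul_neg, neg_mul, neg_inj] at h2
        exact h2.symm
    have h2 : c (t • (N * Nᴴ - Nᴴ * N)) = t • (c N * c Nᴴ - c Nᴴ * c N) := by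
      rw [← map_mul, ← map_mul, ← map_sub]
      ext
      simp [c]
    rw [hG, hg]
    refine (Eq.trans ?_ (SemiconjBy.exp_right (x := J) (a := c (t • (N * Nᴴ - Nᴴ * N))) ?_).eq).symm
    · exact congrArg (J * ·) (map_exp c hc _)
    · rw [h2, SemiconjBy, mul_smul_comm, smul_mul_assoc,
        ((hN.mul_right h1).sub_right (h1.mul_right hN)).eq]
  · rw [Set.mem_ofPred_eq, map_sub, map_one]
    exact (hG' _ u.2).sub_right (SemiconjBy.one_right J)
  · have h1 : g.1 * (g⁻¹).1 = 1 := congrArg Subtype.val (mul_inv_cancel g)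
    rw [mul_sub, sub_mul, mul_one, h1, sub_add_cancel]

set_option backward.isDefEq.respectTransparency false in
theorem contract_su (G : Subgroup (SpecialLinearGroup (Fin n) ℂ)) {J : Matrix (Fin n) (Fin n) ℂ}
    (hJ : J * J = 1) (hG : ∀ g, g ∈ G ↔ g.1ᴴ * J * g.1 = J) (u : G)
    (hu : IsNilpotent (u.1.1 - 1)) {W : Set G} (hW : W ∈ 𝓝 1) : ∃ g, g * u * g⁻¹ ∈ W := by
  have hinv : ∀ g : SpecialLinearGroup (Fin n) ℂ, g.1 * (g⁻¹).1 = 1 := fun g =>
    congrArg Subtype.val (mul_inv_cancel g)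
  have hinv' : ∀ g : SpecialLinearGroup (Fin n) ℂ, (g⁻¹).1 * g.1 = 1 := fun g =>
    congrArg Subtype.val (inv_mul_cancel g)
  obtain ⟨w, hw⟩ : IsUnit (1 + (2⁻¹ : ℂ) • (u.1.1 - 1)) := (hu.smul _).isUnit_one_add
  have hw' : u.1.1 = (2 : ℂ) • w.1 - 1 := by
    rw [hw]
    module
  refine kn_nhds G u (N := 1 - (w⁻¹).1) (kn G (L := {N | SemiconjBy J (-N) Nᴴ})
    (isClosed_eq (by fun_prop) (by fun_prop)) (fun g hg N hN => ?_) (fun N hN t g hg => ?_) ?_ ?_)
    (φ := fun M => (2 : ℂ) • (1 - M)⁻¹ - 1) ?_ ?_ (fun g => ?_) hW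
  · have h1 : ∀ g ∈ G, SemiconjBy J (g⁻¹).1 g.1ᴴ := fun g hg => by
      rw [SemiconjBy]
      conv_lhs => rw [← (hG g).1 hg, mul_assoc, hinv, mul_one]
    have h2 := h1 _ (inv_mem hg)
    rw [inv_inv] at h2
    have h3 := (h2.mul_right hN).mul_right (h1 g hg)
    rwa [Set.mem_ofPred_eq, conjTranspose_mul, conjTranspose_mul, ← mul_assoc, ← neg_mul,
      ← mul_neg]
  · have h1 : SemiconjBy J (-Nᴴ) N := by
      have h2 := congrArg (fun M => J * M * J) hN.eq
      simp only [← mul_assoc, hJ, one_mul] at h2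
      rw [mul_assoc, hJ, mul_one] at h2
      rw [SemiconjBy, mul_neg, ← h2, neg_mul, neg_neg]
    have h2 : SemiconjBy J (-(t • (N * Nᴴ - Nᴴ * N))) (t • (N * Nᴴ - Nᴴ * N)) := by
      have h3 := ((h1.mul_right hN).sub_right (hN.mul_right h1)).eq
      rw [neg_mul_neg, neg_mul_neg, ← neg_sub] at h3
      rw [SemiconjBy, ← smul_neg, mul_smul_comm, smul_mul_assoc, h3]
    have h3 : (t • (N * Nᴴ - Nᴴ * N)).IsHermitian := ((isHermitian_mul_conjTranspose_self N).sub
      (isHermitian_conjTranspose_mul_self N)).smul (.all t)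
    rw [hG, hg, h3.exp.eq, ← h2.exp_right.eq, mul_assoc,
      ← Matrix.exp_add_of_commute _ _ (Commute.refl _).neg_left, neg_add_cancel, exp_zero, mul_one]
  · have h1 := (hG _).1 u.2
    have h2 : w.1ᴴ * J + J * w.1 = (2 : ℂ) • (w.1ᴴ * J * w.1) := by
      rw [hw', conjTranspose_sub, conjTranspose_smul, conjTranspose_one, star_ofNat] at h1
      simp only [sub_mul, mul_sub, smul_mul_assoc, mul_smul_comm, one_mul, mul_one] at h1
      linear_combination (norm := module) (-2⁻¹ : ℂ) • h1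
    have h3 := congrArg (fun M => (w⁻¹).1ᴴ * M * (w⁻¹).1) h2
    simp only [mul_add, add_mul, mul_smul_comm, smul_mul_assoc, ← mul_assoc, ← conjTranspose_mul,
      Units.mul_inv, conjTranspose_one, one_mul, Units.mul_inv_cancel_right] at h3
    rw [Set.mem_ofPred_eq, SemiconjBy, conjTranspose_sub, conjTranspose_one, neg_sub, mul_sub,
      sub_mul, mul_one, one_mul]
    linear_combination (norm := module) h3
  · have h1 : 1 - (w⁻¹).1 = (2⁻¹ : ℂ) • (u.1.1 - 1) * (w⁻¹).1 := by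
      rw [← add_sub_cancel_left 1 (_ • _), ← hw, sub_mul, w.mul_inv, one_mul]
    rw [h1]
    refine Commute.isNilpotent_mul_right (Commute.units_inv_right ?_) (hu.smul _)
    rw [hw]
    exact (Commute.one_right _).add_right (Commute.refl _)
  · have h1 : ContinuousAt (fun M : Matrix (Fin n) (Fin n) ℂ => (1 - M)⁻¹) 0 :=
      ContinuousAt.comp_of_eq (f := fun M => 1 - M) (continuousAt_matrix_inv 1 (by
        rw [det_one]
        exact NormedRing.inverse_continuousAt 1)) (by fun_prop) (sub_zero 1)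
    fun_prop
  · rw [sub_zero, inv_one]
    module
  · have h1 : (1 - g.1 * (1 - (w⁻¹).1) * (g⁻¹).1)⁻¹ = g.1 * w.1 * (g⁻¹).1 := by
      rw [mul_sub, sub_mul, mul_one, hinv, sub_sub_cancel]
      refine inv_eq_right_inv ?_
      rw [mul_assoc, mul_assoc, mul_assoc, ← mul_assoc (g⁻¹).1, hinv', one_mul,
        Units.inv_mul_cancel_left, hinv]
    rw [h1, hw', mul_sub, sub_mul, mul_one, hinv, mul_smul_comm, smul_mul_assoc]

theorem contract {r : ℕ} {κ : Fin r → Kind} (hκ : ∀ i, 0 < realRank n (κ i))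
    (u : Π i, factor n (κ i)) (hu : ∀ i, IsNilpotent (prj κ i u - 1))
    {W : Set (Π i, factor n (κ i))} (hW : W ∈ nhds 1) : ∃ g, g * u * g⁻¹ ∈ W := by
  rw [nhds_pi] at hW
  obtain ⟨I, -, V, hV, h⟩ := mem_pi.1 hW
  have key : ∀ (k : Kind), 0 < realRank n k → ∀ v : factor n k, IsNilpotent (v.1.1 - 1) →
      ∀ V ∈ 𝓝 (1 : factor n k), ∃ g, g * v * g⁻¹ ∈ V := by
    rintro (_ | _ | p | _) hk v hv V hV
    · refine contract_lin _ (J := 1) (Or.inl transpose_one) (fun g => ?_) v hv hV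
      rw [mul_one, one_mul]
      constructor
      · rintro ⟨a, rfl⟩
        ext
        simp
      · intro h1
        have e : (algebraMap ℝ ℂ).mapMatrix (g.1.map Complex.re) = g.1 := by
          ext a b
          exact Complex.conj_eq_iff_re.1 (congrFun (congrFun h1 a) b).symm
        exact ⟨⟨g.1.map Complex.re, Complex.ofReal_injective (by
          rw [← Complex.coe_algebraMap, RingHom.map_det, e, g.2, map_one])⟩, Subtype.ext e⟩
    · exact contract_lin _ (J := 0) (Or.inl transpose_zero)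
        (fun g => ⟨fun _ => by rw [mul_zero, zero_mul], fun _ => Subgroup.mem_top g⟩) v hv hV
    · refine contract_su _ (J := form n p) ?_ (fun g => Iff.rfl) v hv hV
      rw [form, diagonal_mul_diagonal, ← diagonal_one]
      refine congrArg diagonal (funext fun k => ?_)
      split_ifs <;> simp
    · refine contract_lin _ (J := jq n) (Or.inr ?_) (fun g => Iff.rfl) v hv hV
      obtain ⟨m, rfl⟩ : Even n := by_contra fun hn => by simp [realRank, hn] at hk
      ext a b
      have := a.2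
      have := b.2
      simp only [jq, form, transpose_apply, Matrix.neg_apply, submatrix_apply, diagonal_apply,
        id, Fin.ext_iff, Fin.val_rev]
      split_ifs <;> first | omega | simp
  choose g hg using fun i => key _ (hκ i) (u i) (hu i) _ (hV i)
  exact ⟨g, h fun i _ => hg i⟩

end Pool.Agent.Lib.MP_162bbe_gt.SU
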