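import Pool.Agent.Lib.MP_162bbe_gt.SU.Main

/-! The eigenvalue gap. -/

namespace Pool.Agent.Lib.MP_162bbe_gt.SU

open Module Matrix Polynomial NumberField

/-- `u` is an eigenvalue of a component of `g` or of its inverse. -/
def Eig {n r : ℕ} (κ : Fin r → Kind) (g : Π i, factor n (κ i)) (u : ℂ) : Prop :=
  ∃ i, u ∈ (prj κ i g).charpoly.roots ∨ u ∈ (prj κ i g⁻¹).charpoly.roots

theorem core_big {n r : ℕ} {κ : Fin r → Kind} {g : Π i, factor n (κ i)} {u : ℂ} (h : Eig κ g u)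
    (hu : 1 < ‖u‖) : ∃ i, ∃ w ∈ (prj κ i g).charpoly.roots, 1 < ‖w‖ := by
  obtain ⟨i, h | h⟩ := h
  · exact ⟨i, u, h, hu⟩
  · have h0 : u ≠ 0 := norm_pos_iff.1 (one_pos.trans hu)
    have h1 : u⁻¹ ∈ (prj κ i g).charpoly.roots := by
      rw [main_mem] at h ⊢
      exact (spectrum.inv_mem_iff (r := Units.mk0 u h0)
        (a := ((prj κ i).toHomUnits g)⁻¹)).1 (by rwa [← map_inv])
    exact ⟨i, exists_big (g i).1 h1 (by
      rw [norm_inv]
      exact (inv_lt_one_of_one_lt₀ hu).ne)⟩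

theorem core (n r r' d : ℕ) : ∃ R : ℝ, 1 < R ∧ ∀ (K D A : Type) [Field K] [NumberField K]
    [DivisionRing D] [Algebra K D] [Algebra.IsCentral K D] [Module.Finite K D] [Ring A]
    [Algebra K A] (m : ℕ) (_ : Num K D n m d) (e : A ≃ₐ[K] Matrix (Fin m) (Fin m) D)
    (κ : Fin r → Kind) (σ : Fin r → K →+* ℂ) (ρ : Fin r → A →+* Matrix (Fin n) (Fin n) ℂ)
    (S : Fin r' → K →+* ℂ) (y : A) (g : Π i, factor n (κ i)) (_ : Fin r),
    (∀ i, Ok n d (κ i)) → (∀ i, Over (σ i) (ρ i)) →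
    (∀ i, σ i ∈ Set.range S) → (∀ i, ρ i y = prj κ i g) → IsIntegral ℤ y →
    (∀ s ∉ Set.range S, ∀ w ∈ ((chi K (e y)).map s).roots, ‖w‖ = 1) →
    (∀ j, ∀ w ∈ ((chi K (e y)).map (S j)).roots, ∃ u, Eig κ g u ∧ ‖u‖ = ‖w‖) →
    (∀ u, Eig κ g u → ‖u‖ < R) → IsOfFinOrder g := by
  obtain ⟨c, hc, hdd⟩ := dd_main (n * d) r'
  refine ⟨Real.exp (c * 1), Real.one_lt_exp_iff.2 (by positivity), ?_⟩
  intro K D A _ _ _ _ _ _ _ _ m h e κ σ ρ S y g i₀ hd hρ hσ hy hint hcirc hS hR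
  have hd0 : 0 < d := Nat.pos_of_mul_pos_left (h.mul ▸ h.pos)
  obtain ⟨j₀, hj₀⟩ := hσ i₀
  have key := hdd K D (Fin m → D) S (e y).toLinearMapRight' (chi K (e y)) 1 rfl
    (by rw [chi, LinearMap.charpoly_natDegree, finrank_pi_fintype, Finset.sum_const,
      Finset.card_univ, Fintype.card_fin, h.dim, ← h.mul, smul_eq_mul]; ring)
    (main_int h e (hρ i₀) hint) hcirc
    (fun j w hw => by
      obtain ⟨u, hu, h1⟩ := hS j w hw
      refine ⟨norm_ne_zero_iff.1 (h1 ▸ norm_ne_zero_iff.2 ?_), h1 ▸ (hR u hu).le⟩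
      obtain ⟨i, hu | hu⟩ := hu <;>
        exact eig_ne_zero (prj κ i) ((mem_roots (charpoly_monic _).ne_zero).1 hu))
    (by
      rintro ⟨j, w, hw, h1⟩
      obtain ⟨u, hu, h2⟩ := hS j w hw
      obtain ⟨i, v, hv, h3⟩ := core_big hu (h2 ▸ h1)
      obtain ⟨j, hj⟩ := hσ i
      refine ⟨j, ‖v‖, h3, ?_⟩
      rw [hj, chi_roots h e (hρ i), Multiset.filter_nsmul, Multiset.card_nsmul, h.dim, hy, sq,
        mul_left_comm, Nat.mul_dvd_mul_iff_left hd0]
      exact not_dvd (hd i) (g i).2 h3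
        (Multiset.card_pos_iff_exists_mem.2 ⟨v, Multiset.mem_filter.2 ⟨hv, rfl⟩⟩))
    zero_le_one (by rw [one_pow]; exact_mod_cast finrank_pos) j₀
  obtain ⟨M, hM, hnil⟩ := exists_pow_nilpotent (prj κ i₀ g) fun z hz => key z (by
    rw [hj₀, main_root h e (hρ i₀), hy]
    exact (mem_roots (charpoly_monic _).ne_zero).2 hz)
  have h1 : y ^ M = 1 := main_one h e (hd i₀) (ρ i₀)
    ((g ^ M) i₀).2 (by rw [map_pow, hy, ← map_pow]; rfl) (by rwa [← map_pow] at hnil)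
  refine isOfFinOrder_iff_pow_eq_one.2 ⟨M, hM, funext fun i => Subtype.ext (Subtype.ext ?_)⟩
  change prj κ i (g ^ M) = 1
  rw [map_pow, ← hy, ← map_pow, h1, map_one]

theorem core_nhds {n r : ℕ} (κ : Fin r → Kind) {R : ℝ} (hR : 1 < R) (N : ℕ) :
    {g : Π i, factor n (κ i) | ∀ u, Eig κ (g ^ N) u → ‖u‖ < R} ∈ nhds 1 := by
  have h1 := spec_nhds (prj (n := n) κ) (continuous_prj κ) hR
  have h2 := Filter.inter_mem h1 (inv_mem_nhds_one _ h1)
  have h3 := (continuous_pow N).continuousAt (x := (1 : Π i, factor n (κ i)))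
  rw [ContinuousAt, one_pow] at h3
  refine Filter.mem_of_superset (h3 h2) ?_
  rintro g ⟨h4, h5⟩ u ⟨i, hu | hu⟩
  · exact h4 i u ((mem_roots (charpoly_monic _).ne_zero).1 hu)
  · exact h5 i u ((mem_roots (charpoly_monic _).ne_zero).1 hu)

theorem core_conj {n r : ℕ} {κ : Fin r → Kind} (a g : Π i, factor n (κ i)) {u : ℂ}
    (h : Eig κ g u) : Eig κ (a * g * a⁻¹) u := by
  have h1 : ∀ i g, (prj κ i (a * g * a⁻¹)).charpoly = (prj κ i g).charpoly := fun i g => by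
    rw [map_mul, Matrix.charpoly_mul_comm, ← map_mul, inv_mul_cancel_left]
  obtain ⟨i, h⟩ := h
  exact ⟨i, by rwa [conj_inv, h1, h1]⟩

/-- The twist of a representation by the involution. -/
def tw {A : Type} [Ring A] [StarRing A] {n : ℕ} (ρ : A →+* Matrix (Fin n) (Fin n) ℂ) :
    A →+* Matrix (Fin n) (Fin n) ℂ where
  toFun x := (ρ (star x))ᵀ
  map_one' := by rw [star_one, map_one, transpose_one]
  map_mul' x y := by rw [star_mul, map_mul, transpose_mul]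
  map_zero' := by rw [star_zero, map_zero, transpose_zero]
  map_add' x y := by rw [star_add, map_add, transpose_add]

theorem tw_over {K A : Type} [Field K] [StarRing K] [Ring A] [StarRing A] [Algebra K A]
    [StarModule K A] {n : ℕ} {s : K →+* ℂ} {ρ : A →+* Matrix (Fin n) (Fin n) ℂ} (h : Over s ρ) :
    Over (s.comp (starRingEnd K)) (tw ρ) := fun a => by
  change (ρ (star (algebraMap K A a)))ᵀ = _
  rw [← algebraMap_star_comm, h, scalar_apply, diagonal_transpose]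
  rfl

end Pool.Agent.Lib.MP_162bbe_gt.SU
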