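import Pool.Agent.Lib.MP_162bbe_gt.SU.Defs

/-! The condition on the field of definition. -/

namespace Pool.Agent.Lib.MP_162bbe_gt.SU

open Module NumberField IntermediateField

/-- The compositum of the images of the embeddings `τ l` has degree at most
`C * (d / log (3 * d) ^ a) ^ j`. -/
def Few {k : Type} [Field k] [CharZero k] (a : ℕ) (C : ℝ) (d j : ℕ) (τ : Fin j → k →+* ℂ) : Prop :=
  (finrank ℚ ↥(⨆ l, (τ l).toRatAlgHom.fieldRange) : ℝ) * (Real.log (3 * d) ^ a) ^ j ≤ C * d ^ j

/-- The normal closure of `F` has a solvable Galois group, or degree at most `[F : ℚ] ^ m`, or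
each subfield `k` such that all extensions to `F` of the restriction of some `s ∈ S` lie in `S` has
`j ≤ m` distinct embeddings with a small compositum. -/
def Small (m a : ℕ) (C : ℝ) (F : Type) [Field F] [NumberField F] (S : Set (F →+* ℂ)) : Prop :=
  Group.IsSolvable (normalClosure ℚ F ℂ ≃ₐ[ℚ] normalClosure ℚ F ℂ) ∨
    finrank ℚ (normalClosure ℚ F ℂ) ≤ finrank ℚ F ^ m ∨
    ∀ s ∈ S, ∀ k : IntermediateField ℚ F, (∀ t : F →+* ℂ, (∀ x ∈ k, t x = s x) → t ∈ S) →
      ∃ (j : ℕ) (τ : Fin j → k →+* ℂ), 1 ≤ j ∧ j ≤ m ∧ Function.Injective τ ∧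
        Few a C (finrank ℚ F) j τ

/-- `Γ` comes from the unitary group of a central simple algebra with involution, of any index,
and the field `F` fixed by the involution satisfies `Small` for its non-compact places. -/
def SmallType {G : Type} [Group G] {n r : ℕ} (π : Fin r → G → Matrix (Fin n) (Fin n) ℂ) (m a : ℕ)
    (C : ℝ) (Γ : Subgroup G) : Prop :=
  ∃ (K D A F : Type) (_ : Field K) (_ : StarRing K) (_ : DivisionRing D) (_ : Algebra K D)
    (_ : Ring A) (_ : StarRing A) (_ : Algebra K A) (_ : Field F) (_ : NumberField F)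
    (ι : F →+* K) (d : ℕ) (X : Datum π d Γ K D A), (∀ x, x ∈ ι.range ↔ star x = x) ∧
      Small m a C F {s | ∃ i, InfinitePlace.mk s = InfinitePlace.mk ((X.σ i).comp ι)}

end Pool.Agent.Lib.MP_162bbe_gt.SU
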