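import Pool.Agent.Lib.MP_162bbe_gt.SU.Core

/-! Short elements have finite order. -/

namespace Pool.Agent.Lib.MP_162bbe_gt.SU

open Matrix NumberField

theorem fin_order (n r : ℕ) (κ : Fin r → Kind) (hκ : ∀ i, 0 < realRank n (κ i)) :
    ∃ U ∈ nhds (1 : Π i, factor n (κ i)), ∀ Γ : Subgroup (Π i, factor n (κ i)),
      CompactSpace ((Π i, factor n (κ i)) ⧸ Γ) → ∀ d, (∀ i, Ok n d (κ i)) →
      UnitaryType (fun i g => (g i).1.1) d Γ →
      ∀ g, ∀ γ ∈ Γ, g * γ * g⁻¹ ∈ U → IsOfFinOrder γ := by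
  let E := Fintype.equivFin (Fin r × Bool × Bool)
  choose R hR hcore using fun d => core n r (Fintype.card (Fin r × Bool × Bool)) d
  refine ⟨⋂ d : Fin (n + 1), {g | ∀ u, Eig κ (g ^ (2 * n * n)) u → ‖u‖ < R d},
    Filter.iInter_mem.2 fun d => core_nhds κ (hR d) _, ?_⟩
  rintro Γ _ d hd ⟨K, D, A, _, _, _, _, _, _, _, ⟨m, e, O, σ, ρ, Δ, _, _, hD, hn, _, _, hρ, hdef, _,
    hΔ⟩⟩ g γ hγ hU
  rcases isEmpty_or_nonempty (Fin r) with hr | ⟨⟨i₀⟩⟩
  · exact Subsingleton.elim 1 γ ▸ IsOfFinOrder.one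
  have hn0 : 0 < n := by
    have := hκ i₀
    rcases n with _ | n
    · rcases h : κ i₀ with _ | _ | p | _ <;> simp [h, realRank] at this
    · omega
  have h : Num K D n m d := ⟨hn0, hD, hn⟩
  have hd0 : 0 < d := Nat.pos_of_mul_pos_left (hn ▸ hn0)
  have : Module.Finite K D := Module.finite_of_finrank_pos (by rw [hD]; positivity)
  have : Nonempty (Fin n) := ⟨⟨0, hn0⟩⟩
  have := h.simple e
  obtain ⟨y, hy⟩ := main_lift h e hκ Δ hρ (fun δ hδ => (hΔ δ hδ).imp fun x hx => hx.2.2) i₀ ⟨γ, hγ⟩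
  obtain ⟨N, hN, -, hN'⟩ := Subgroup.exists_pow_mem_of_index_ne_zero
    (Subgroup.FiniteIndex.index_ne_zero (H := Δ)) (⟨γ, hγ⟩ ^ (2 * n * n))
  obtain ⟨z, hzO, hzU, hz⟩ := hΔ _ hN'
  have hz' : ∀ i, ρ i z = prj κ i (γ ^ (2 * n * n)) ^ N := fun i =>
    (hz i).trans (map_pow (prj κ i) _ N)
  have hyz : y ^ N = z := (ρ i₀).injective (by rw [map_pow, hy, hz'])
  let T : Fin r × Bool → K →+* ℂ := fun p => bif p.2 then σ p.1 else (σ p.1).comp (starRingEnd K)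
  let S : Fin r × Bool × Bool → K →+* ℂ := fun p =>
    bif p.2.2 then T (p.1, p.2.1) else ComplexEmbedding.conjugate (T (p.1, p.2.1))
  have hS : ∀ s p, InfinitePlace.mk s = InfinitePlace.mk (T p) → s ∈ Set.range (S ∘ E.symm) := by
    intro s p hp
    rw [E.symm.surjective.range_comp]
    rcases InfinitePlace.mk_eq_iff.1 hp.symm with h1 | h1
    · exact ⟨(p.1, p.2, true), h1⟩
    · exact ⟨(p.1, p.2, false), h1⟩
  have hχ : chi K (e y) ≠ 0 := (LinearMap.charpoly_monic _).ne_zero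
  have hT : ∀ p, ∀ w ∈ ((chi K (e y)).map (T p)).roots,
      ∃ u, Eig κ (γ ^ (2 * n * n)) u ∧ ‖u‖ = ‖w‖ := by
    rintro ⟨i, _ | _⟩ w hw
    · have h1 := (main_root h e (tw_over (hρ i))).1 hw
      change w ∈ (ρ i (star y))ᵀ.charpoly.roots at h1
      rw [charpoly_transpose] at h1
      obtain ⟨u, hu, h2⟩ := main_pow hN (Q := prj κ i (γ ^ (2 * n * n))⁻¹) (by
        have h3 := congrArg (ρ i) (Unitary.star_mul_self_of_mem hzU)
        rw [map_mul, map_one, hz', ← map_pow] at h3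
        rw [← map_pow, ← star_pow, hyz, ← map_pow, inv_pow, ← mul_one (ρ i (star z)),
          ← map_one (prj κ i), ← mul_inv_cancel ((γ ^ (2 * n * n)) ^ N), map_mul, ← mul_assoc, h3,
          one_mul]) h1
      exact ⟨u, ⟨i, Or.inr hu⟩, h2⟩
    · exact ⟨w, ⟨i, Or.inl (hy i ▸ (main_root h e (hρ i)).1 hw)⟩, rfl⟩
  refine IsOfFinOrder.of_pow (n := 2 * n * n) (hcore d K D A m h e κ σ ρ (S ∘ E.symm) y _
    i₀ hd hρ (fun i => hS _ (i, true) rfl) hy ?_ (fun s hs w hw => ?_) (fun j w hw => ?_)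
    fun u hu => ?_) (by positivity)
  · refine IsIntegral.of_pow hN (hyz ▸ ?_)
    exact (IsIntegral.of_finite ℤ (⟨z, hzO⟩ : O)).map O.subtype.toIntAlgHom
  · obtain ⟨ρ', h1, h2⟩ := hdef s fun i =>
      ⟨fun h => hs (hS _ (i, true) h), fun h => hs (hS _ (i, false) h)⟩
    obtain ⟨u, hu, h3⟩ := main_pow hN (P := ρ' z) (Q := ρ' z) rfl (w := w ^ N) (by
      rw [main_mem, ← hyz, map_pow, spectrum.map_pow_of_pos _ hN]
      exact ⟨w, main_mem.1 ((main_root h e h1).1 hw), rfl⟩)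
    rw [main_unitary (by rw [← h2, ← map_mul, Unitary.star_mul_self_of_mem hzU, map_one]) hu,
      norm_pow] at h3
    exact (pow_eq_one_iff_of_nonneg (norm_nonneg _) hN.ne').1 h3.symm
  · have h1 : InfinitePlace.mk ((S ∘ E.symm) j) =
        InfinitePlace.mk (T ((E.symm j).1, (E.symm j).2.1)) := by
      rcases h1 : (E.symm j).2.2 <;> simp only [Function.comp_apply, S, h1, cond]
      exact InfinitePlace.mk_conjugate_eq _
    obtain ⟨w', hw', h2⟩ := main_conj hχ h1 hw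
    exact h2 ▸ hT _ w' hw'
  · have h1 := Set.mem_iInter.1 hU
      ⟨d, Nat.lt_succ_of_le (Nat.le_of_dvd hn0 ⟨m, by rw [← hn, mul_comm]⟩)⟩
    rw [Set.mem_ofPred_eq, conj_pow] at h1
    exact h1 u (core_conj g _ hu)

end Pool.Agent.Lib.MP_162bbe_gt.SU
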