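import Pool.Agent.Lib.MP_162bbe_gt.SU.PolyN
import Pool.Agent.Lib.MP_162bbe_gt.SU.Core

/-! Descent to the field fixed by the involution; short elements have unipotent powers. -/

namespace Pool.Agent.Lib.MP_162bbe_gt.SU

open Polynomial NumberField

theorem intg_mul {K : Type} [Field K] {p q : K[X]} (hp : ∀ n, IsIntegral ℤ (p.coeff n))
    (hq : ∀ n, IsIntegral ℤ (q.coeff n)) (n : ℕ) : IsIntegral ℤ ((p * q).coeff n) := by
  rw [coeff_mul]
  exact IsIntegral.sum _ fun c _ => (hp _).mul (hq _)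

theorem intg_pow {K : Type} [Field K] {p : K[X]} (hp : ∀ n, IsIntegral ℤ (p.coeff n)) (N : ℕ) :
    ∀ n, IsIntegral ℤ ((p ^ N).coeff n) := by
  induction N with
  | zero =>
    intro n
    rw [pow_zero, coeff_one]
    split_ifs
    · exact isIntegral_one
    · exact isIntegral_zero
  | succ N ih => exact pow_succ p N ▸ intg_mul ih hp

theorem poly_star (M r m : ℕ) : ∃ a : ℕ, ∀ C : ℝ, ∃ R : ℝ, 1 < R ∧
    ∀ (K F : Type) [Field K] [NumberField K] [StarRing K] [Field F] [NumberField F] (ι : F →+* K)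
      (χ : K[X]) (σ : Fin r → K →+* ℂ), (∀ x, x ∈ ι.range ↔ star x = x) → χ.Monic →
      χ.natDegree = M → (∀ n, IsIntegral ℤ (χ.coeff n)) →
      Small m a C F {s | ∃ i, InfinitePlace.mk s = InfinitePlace.mk ((σ i).comp ι)} →
      (∀ s : K →+* ℂ, (∀ i, InfinitePlace.mk s ≠ InfinitePlace.mk (σ i) ∧
        InfinitePlace.mk s ≠ InfinitePlace.mk ((σ i).comp (starRingEnd K))) →
        ∀ z, eval₂ s z χ = 0 → ‖z‖ = 1) →
      (∀ i z, eval₂ (σ i) z χ = 0 ∨ eval₂ ((σ i).comp (starRingEnd K)) z χ = 0 →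
        z ≠ 0 ∧ ‖z‖ ≤ R) →
      ∀ i z, eval₂ (σ i) z χ = 0 → ∃ n, 0 < n ∧ z ^ n = 1 := by
  let E := Fintype.equivFin (Fin r × Bool)
  obtain ⟨a, ha⟩ := poly_n (M + M) (Fintype.card (Fin r × Bool)) m
  refine ⟨a, fun C => ?_⟩
  obtain ⟨R, hR, h⟩ := ha C
  refine ⟨R, hR, fun K F _ _ _ _ _ ι χ σ hι hm hM hint hS hcirc hγ => ?_⟩
  have hst : (starRingEnd K).comp (starRingEnd K) = RingHom.id K := RingHom.ext star_star
  have hι' : (starRingEnd K).comp ι = ι := RingHom.ext fun x => (hι _).1 ⟨x, rfl⟩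
  have h1 : (χ * χ.map (starRingEnd K)).map (starRingEnd K) = χ * χ.map (starRingEnd K) := by
    rw [Polynomial.map_mul, map_map, hst, map_id, mul_comm]
  obtain ⟨φ, hφ, hd, hφm⟩ := lifts_and_natDegree_eq_and_monic (f := ι)
    ((lifts_iff_coeff_lifts _).2 fun n => (hι _).2 ((coeff_map _ n).symm.trans
      (congrArg (coeff · n) h1))) (hm.mul (hm.map _))
  have h2 : ∀ (t : K →+* ℂ) z, eval₂ (t.comp ι) z φ = 0 ↔
      eval₂ t z χ = 0 ∨ eval₂ (t.comp (starRingEnd K)) z χ = 0 := fun t z => by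
    rw [← eval₂_map, hφ, eval₂_mul, mul_eq_zero, eval₂_map]
  let T : Fin r × Bool → F →+* ℂ := fun p =>
    bif p.2 then (σ p.1).comp ι else ComplexEmbedding.conjugate ((σ p.1).comp ι)
  have hT : {s | ∃ i, InfinitePlace.mk s = InfinitePlace.mk ((σ i).comp ι)} =
      Set.range (T ∘ E.symm) := by
    rw [E.symm.surjective.range_comp]
    ext s
    constructor
    · rintro ⟨i, hi⟩
      rcases InfinitePlace.mk_eq_iff.1 hi.symm with h3 | h3
      · exact ⟨(i, true), h3⟩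
      · exact ⟨(i, false), h3⟩
    · rintro ⟨⟨i, _ | _⟩, rfl⟩
      · exact ⟨i, InfinitePlace.mk_conjugate_eq _⟩
      · exact ⟨i, rfl⟩
  refine fun i z hz => h F φ (T ∘ E.symm) hφm
    (by rw [hd, hm.natDegree_mul (hm.map _), hm.natDegree_map, hM]) (fun n => ?_) (hT ▸ hS)
    (fun s hs z hz => ?_) (fun j z hz => ?_) _ z ((h2 _ z).2 (Or.inl hz))
  · refine (isIntegral_algHom_iff ι.toIntAlgHom ι.injective).1 ?_
    have h3 : ι.toIntAlgHom (φ.coeff n) = (φ.map ι).coeff n := (coeff_map _ _).symm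
    rw [h3, hφ]
    exact intg_mul hint (fun k => by
      rw [coeff_map]
      exact (hint k).map (starRingEnd K).toIntAlgHom) n
  · let _ := ι.toAlgebra
    have : IsScalarTower ℚ F K := IsScalarTower.of_algebraMap_eq fun x => (map_ratCast ι x).symm
    have : Algebra.IsAlgebraic F K := Algebra.IsAlgebraic.tower_top (K := ℚ) F
    have h3 : (ComplexEmbedding.lift K s).comp ι = s := ComplexEmbedding.lift_comp_algebraMap K s
    have h4 : ∀ t : K →+* ℂ, t.comp ι = s → ∀ z, eval₂ t z χ = 0 → ‖z‖ = 1 := fun t ht =>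
      hcirc t fun i => ⟨fun h5 => hs (hT ▸ ⟨i, ht ▸ congrArg (·.comap ι) h5⟩), fun h5 =>
        hs (hT ▸ ⟨i, by
          have h6 := congrArg (·.comap ι) h5
          simp only [InfinitePlace.comap_mk] at h6
          rwa [RingHom.comp_assoc, hι', ht] at h6⟩)⟩
    rcases (h2 _ z).1 (h3.symm ▸ hz) with h5 | h5
    · exact h4 _ h3 z h5
    · exact h4 _ (by rw [RingHom.comp_assoc, hι', h3]) z h5
  · rcases h3 : (E.symm j).2 <;> simp only [Function.comp_apply, T, h3, cond] at hz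
    · have h4 := hom_eval₂ φ (ComplexEmbedding.conjugate ((σ (E.symm j).1).comp ι))
        (starRingEnd ℂ) z
      rw [hz, map_zero] at h4
      have h5 : (starRingEnd ℂ).comp (ComplexEmbedding.conjugate ((σ (E.symm j).1).comp ι)) =
          (σ (E.symm j).1).comp ι := RingHom.ext fun x => Complex.conj_conj _
      rw [h5] at h4
      have h6 := hγ _ _ ((h2 _ _).1 h4.symm)
      exact ⟨fun h0 => h6.1 (by rw [h0, map_zero]), Complex.norm_conj z ▸ h6.2⟩
    · exact hγ _ _ ((h2 _ _).1 hz)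

open Matrix in
theorem small_nil (n r m : ℕ) (κ : Fin r → Kind) (hκ : ∀ i, 0 < realRank n (κ i)) :
    ∃ a : ℕ, ∀ C : ℝ, ∃ U ∈ nhds (1 : Π i, factor n (κ i)),
      ∀ Γ : Subgroup (Π i, factor n (κ i)), CompactSpace ((Π i, factor n (κ i)) ⧸ Γ) →
      SmallType (fun i g => (g i).1.1) m a C Γ → ∀ g, ∀ γ ∈ Γ, g * γ * g⁻¹ ∈ U →
      ∃ M, 0 < M ∧ ∀ i, IsNilpotent (prj κ i (γ ^ M) - 1) := by
  obtain ⟨a, ha⟩ := poly_star (n * n) r m
  refine ⟨a, fun C => ?_⟩
  obtain ⟨R, hR, hcore⟩ := ha C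
  refine ⟨_, core_nhds κ hR (2 * n * n), ?_⟩
  rintro Γ _ ⟨K, D, A, F, _, _, _, _, _, _, _, _, _, ι, d,
    ⟨μ, e, O, σ, ρ, Δ, _, _, hD, hn, _, _, hρ, hdef, _, hΔ⟩, hι, hS⟩ g γ hγ hU
  rcases isEmpty_or_nonempty (Fin r) with hr | ⟨⟨i₀⟩⟩
  · exact ⟨1, one_pos, fun i => isEmptyElim i⟩
  have hn0 : 0 < n := by
    have := hκ i₀
    rcases n with _ | n
    · rcases h : κ i₀ with _ | _ | p | _ <;> simp [h, realRank] at this
    · omega
  have h : Num K D n μ d := ⟨hn0, hD, hn⟩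
  have hd0 : 0 < d := Nat.pos_of_mul_pos_left (hn ▸ hn0)
  have : Module.Finite K D := Module.finite_of_finrank_pos (by rw [hD]; positivity)
  have : Nonempty (Fin n) := ⟨⟨0, hn0⟩⟩
  have := h.simple e
  obtain ⟨y, hy⟩ := main_lift h e hκ Δ hρ (fun δ hδ => (hΔ δ hδ).imp fun x hx => hx.2.2) i₀ ⟨γ, hγ⟩
  obtain ⟨N, hN, -, hN'⟩ := Subgroup.exists_pow_mem_of_index_ne_zero
    (Subgroup.FiniteIndex.index_ne_zero (H := Δ)) (⟨γ, hγ⟩ ^ (2 * n * n))
  obtain ⟨z, hzO, hzU, hz⟩ := hΔ _ hN'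
  have hz' : ∀ i, ρ i z = prj κ i (γ ^ (2 * n * n)) ^ N := fun i =>
    (hz i).trans (map_pow (prj κ i) _ N)
  have hyz : y ^ N = z := (ρ i₀).injective (by rw [map_pow, hy, hz'])
  have hm : (chi K (e y)).Monic := LinearMap.charpoly_monic _
  have hrt : ∀ {s : K →+* ℂ} {ρ' : A →+* Matrix (Fin n) (Fin n) ℂ}, Over s ρ' → ∀ w,
      eval₂ s w (chi K (e y) ^ μ) = 0 ↔ w ∈ (ρ' y).charpoly.roots := fun {s ρ'} h1 w => by
    rw [eval₂_pow, pow_eq_zero_iff h.mpos.ne', ← main_root h e h1, mem_roots_map hm.ne_zero]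
  have hU' : ∀ u, Eig κ (γ ^ (2 * n * n)) u → u ≠ 0 ∧ ‖u‖ ≤ R := fun u hu => by
    rw [Set.mem_ofPred_eq, conj_pow] at hU
    refine ⟨?_, (hU u (core_conj g _ hu)).le⟩
    obtain ⟨i, hu | hu⟩ := hu <;>
      exact eig_ne_zero (prj κ i) ((mem_roots (charpoly_monic _).ne_zero).1 hu)
  have key := hcore K F ι (chi K (e y) ^ μ) σ hι (hm.pow _)
    (by rw [hm.natDegree_pow, chi, LinearMap.charpoly_natDegree, Module.finrank_pi_fintype,
      Finset.sum_const, Finset.card_univ, Fintype.card_fin, hD, ← hn, smul_eq_mul]; ring)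
    (intg_pow (main_int h e (hρ i₀) (IsIntegral.of_pow hN (hyz ▸
      (IsIntegral.of_finite ℤ (⟨z, hzO⟩ : O)).map O.subtype.toIntAlgHom))) _) hS
    (fun s hs w hw => by
      obtain ⟨ρ', h1, h2⟩ := hdef s hs
      obtain ⟨u, hu, h3⟩ := main_pow hN (P := ρ' z) (Q := ρ' z) rfl (w := w ^ N) (by
        rw [main_mem, ← hyz, map_pow, spectrum.map_pow_of_pos _ hN]
        exact ⟨w, main_mem.1 ((hrt h1 w).1 hw), rfl⟩)
      rw [main_unitary (by rw [← h2, ← map_mul, Unitary.star_mul_self_of_mem hzU, map_one]) hu,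
        norm_pow] at h3
      exact (pow_eq_one_iff_of_nonneg (norm_nonneg _) hN.ne').1 h3.symm)
    (by
      rintro i w (hw | hw)
      · exact hU' w ⟨i, Or.inl (hy i ▸ (hrt (hρ i) w).1 hw)⟩
      · have h1 := (hrt (tw_over (hρ i)) w).1 hw
        change w ∈ (ρ i (star y))ᵀ.charpoly.roots at h1
        rw [charpoly_transpose] at h1
        obtain ⟨u, hu, h2⟩ := main_pow hN (Q := prj κ i (γ ^ (2 * n * n))⁻¹) (by
          have h3 := congrArg (ρ i) (Unitary.star_mul_self_of_mem hzU)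
          rw [map_mul, map_one, hz', ← map_pow] at h3
          rw [← map_pow, ← star_pow, hyz, ← map_pow, inv_pow, ← mul_one (ρ i (star z)),
            ← map_one (prj κ i), ← mul_inv_cancel ((γ ^ (2 * n * n)) ^ N), map_mul, ← mul_assoc,
            h3, one_mul]) h1
        have h3 := hU' u ⟨i, Or.inr hu⟩
        exact ⟨norm_ne_zero_iff.1 (h2 ▸ norm_ne_zero_iff.2 h3.1), h2 ▸ h3.2⟩)
  choose f hf hnil using fun i => exists_pow_nilpotent (prj κ i (γ ^ (2 * n * n))) fun w hw =>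
    key i w ((hrt (hρ i) w).2 (hy i ▸ (mem_roots (charpoly_monic _).ne_zero).2 hw))
  refine ⟨2 * n * n * ∏ i, f i, Nat.mul_pos (by positivity) (Finset.prod_pos fun i _ => hf i),
    fun i => ?_⟩
  obtain ⟨c, hc⟩ := Finset.dvd_prod_of_mem f (Finset.mem_univ i)
  rw [hc, pow_mul, pow_mul, map_pow, map_pow, ← mul_geom_sum]
  exact (Commute.isNilpotent_mul_right (by
    rw [commute_iff_eq, mul_geom_sum, geom_sum_mul]) (hnil i))

end Pool.Agent.Lib.MP_162bbe_gt.SU
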