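import Mathlib

/-! Conjugates of the elements of a uniform lattice stay away from the identity. -/

namespace Pool.Agent.Lib.MP_162bbe_gt.SU

open Topology Filter

variable {G H : Type} [Group G] [TopologicalSpace G] [IsTopologicalGroup G] [Group H]

theorem tube_set (Γ : Subgroup G) [CompactSpace (G ⧸ Γ)] {Z : Set G}
    (hZ : ∀ δ ∈ Γ, ∀ z ∈ Z, δ⁻¹ * z * δ ∈ Z) (h1 : Zᶜ ∈ 𝓝 (1 : G)) :
    ∃ W ∈ 𝓝 (1 : G), ∀ b w, w ∈ W → b⁻¹ * w * b ∉ Z := by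
  have h2 : ∀ b : G, ∃ V ∈ 𝓝 b, ∃ W ∈ 𝓝 (1 : G), ∀ v ∈ V, ∀ w ∈ W, v⁻¹ * w * v ∉ Z := fun b => by
    have h3 : ContinuousAt (fun x : G × G => x.1⁻¹ * x.2 * x.1) (b, 1) := by fun_prop
    rw [ContinuousAt, mul_one, inv_mul_cancel, nhds_prod_eq] at h3
    obtain ⟨V, hV, W, hW, h4⟩ := mem_prod_iff.1 (h3 h1)
    exact ⟨V, hV, W, hW, fun v hv w hw => h4 (Set.mk_mem_prod hv hw)⟩
  choose V hV W hW h3 using h2
  obtain ⟨t, ht⟩ := CompactSpace.elim_nhds_subcover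
    (fun x : G ⧸ Γ => QuotientGroup.mk '' V x.out) fun x => by
      have h4 := (QuotientGroup.isOpenMap_coe (N := Γ)).image_mem_nhds (hV x.out)
      rwa [QuotientGroup.out_eq'] at h4
  refine ⟨⋂ x ∈ t, W x.out, (biInter_finset_mem t).2 fun x _ => hW _, fun b w hw hb => ?_⟩
  have h4 : (b : G ⧸ Γ) ∈ ⋃ x ∈ t, QuotientGroup.mk '' V x.out := ht ▸ Set.mem_univ _
  obtain ⟨x, hx, v, hv, h5⟩ := Set.mem_iUnion₂.1 h4
  refine h3 _ v hv w (Set.mem_iInter₂.1 hw x hx) ?_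
  have h6 := hZ _ (QuotientGroup.eq.1 h5.symm) _ hb
  simpa [mul_assoc] using h6

theorem tube [T2Space G] (p : G →* H) [Finite p.ker] (Γ : Subgroup G) [DiscreteTopology Γ]
    [CompactSpace (G ⧸ Γ)] :
    ∃ W ∈ 𝓝 (1 : G), ∀ b w, w ∈ W → p (b⁻¹ * w * b) ∈ Γ.map p → w = 1 := by
  obtain ⟨W, hW, h⟩ := tube_set Γ (Z := {z | p z ∈ Γ.map p ∧ z ≠ 1})
    (fun δ hδ z hz => ⟨by
      rw [map_mul, map_mul]
      exact mul_mem (mul_mem (Subgroup.mem_map_of_mem p (inv_mem hδ)) hz.1)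
        (Subgroup.mem_map_of_mem p hδ), fun h0 => hz.2 ((conj_eq_one_iff (a := δ⁻¹)).1
          (by rwa [inv_inv]))⟩) (by
      have h1 : ∀ ν : p.ker, {x : G | x * ν ∈ Γ → x = 1} ∈ 𝓝 (1 : G) := fun ν => by
        by_cases hν : (ν : G) ∈ Γ
        · have h2 : ({1} : Set Γ) ∈ 𝓝 (1 : Γ) := (isOpen_discrete _).mem_nhds rfl
          rw [nhds_subtype] at h2
          obtain ⟨U, hU, h3⟩ := mem_comap.1 h2
          exact mem_of_superset hU fun x hx h4 => congrArg Subtype.val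
            (h3 (a := ⟨x, (Γ.mul_mem_cancel_right hν).1 h4⟩) hx)
        · have h2 : IsClosed {x : G | x * ν ∈ Γ} :=
            Γ.isClosed_of_discrete.preimage (continuous_mul_const _)
          exact mem_of_superset (h2.isOpen_compl.mem_nhds (by simpa using hν))
            fun x hx h4 => absurd h4 hx
      refine mem_of_superset (iInter_mem.2 h1) fun x hx => ?_
      rintro ⟨⟨γ, hγ, h2⟩, h3⟩
      refine h3 (Set.mem_iInter.1 hx ⟨x⁻¹ * γ, ?_⟩ (by simpa using hγ))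
      rw [MonoidHom.mem_ker, map_mul, map_inv, h2, inv_mul_cancel])
  refine ⟨W, hW, fun b w hw h1 => by_contra fun h2 => h b w hw ⟨h1, fun h0 => h2 ?_⟩⟩
  exact (conj_eq_one_iff (a := b⁻¹)).1 (by rwa [inv_inv])

end Pool.Agent.Lib.MP_162bbe_gt.SU
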